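import Mathlib
import Pool.Agent.W746.LD.Koebe

/-!
# Expanding invariant sets are null sets

The abstract form of the argument for hyperbolic polynomials (`Pool.Agent.N634.LF.zero_area` and
`Pool.Agent.H400R3.HI.empty_int`) for maps of the sphere. The first two lemmas and the porosity lemma
are copies of lemmas of `Pool.Agent.H400R3.HI.Open` and `Pool.Agent.Y331.GJ.Zero`.
-/

set_option autoImplicit false

open Topology Filter Metric Set MeasureTheory

namespace Pool.Agent.Helper32.HN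

open Pool.Agent.W746.LD (Univ KC exists_KC)

/-- a bounded holomorphic function with large derivative at the centre covers a disc -/
theorem cover {δ B m : ℝ} (hδ : 0 < δ) (hB : 0 < B) (hm : 0 < m) :
    ∃ ρ > 0, ∀ (h : ℂ → ℂ) (y : ℂ), DifferentiableOn ℂ h (ball y δ) →
      (∀ s ∈ ball y δ, ‖h s‖ ≤ B) → m ≤ ‖deriv h y‖ → ball (h y) ρ ⊆ h '' ball y δ := by
  set B1 : ℝ := 2 * B / δ with hB1
  have hB1' : 0 < B1 := by positivity
  set r : ℝ := min (δ / 2) (m / 2 * (δ / (2 * B1))) with hr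
  have hr0 : 0 < r := by positivity
  have hrδ : r < δ := lt_of_le_of_lt (min_le_left _ _) (by linarith)
  refine ⟨r * (m / 2) / 2, by positivity, fun h y hd hb hder => ?_⟩
  have hy : y ∈ ball y δ := mem_ball_self hδ
  have h1 : MapsTo h (ball y δ) (closedBall (h y) (2 * B)) := by
    intro s hs
    rw [mem_closedBall, dist_eq_norm]
    have := norm_sub_le (h s) (h y)
    linarith [hb s hs, hb y hy]
  have h2 : ∀ z ∈ ball y δ, ‖dslope h y z‖ ≤ B1 := fun z hz =>
    Complex.norm_dslope_le_div_of_mapsTo_ball hd h1 hz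
  have h3 : DifferentiableOn ℂ (dslope h y) (ball y δ) :=
    (Complex.differentiableOn_dslope (ball_mem_nhds y hδ)).mpr hd
  have h4 : MapsTo (dslope h y) (ball y δ) (closedBall (dslope h y y) (2 * B1)) := by
    intro s hs
    rw [mem_closedBall, dist_eq_norm]
    have := norm_sub_le (dslope h y s) (dslope h y y)
    linarith [h2 s hs, h2 y hy]
  have h5 : ∀ z ∈ sphere y r, r * (m / 2) ≤ ‖h z - h y‖ := by
    intro z hz
    have hzr : dist z y = r := hz
    have hzb : z ∈ ball y δ := by rw [mem_ball, hzr]; exact hrδ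
    have h6 := Complex.dist_le_div_mul_dist_of_mapsTo_ball h3 h4 hzb
    rw [dslope_same, hzr, dist_eq_norm] at h6
    have h7 : 2 * B1 / δ * r ≤ m / 2 := by
      have h8 : r ≤ m / 2 * (δ / (2 * B1)) := min_le_right _ _
      calc 2 * B1 / δ * r ≤ 2 * B1 / δ * (m / 2 * (δ / (2 * B1))) := by gcongr
        _ = m / 2 := by field_simp
    have h8 : m / 2 ≤ ‖dslope h y z‖ := by
      have := norm_sub_norm_le (deriv h y) (dslope h y z)
      rw [norm_sub_rev] at this
      linarith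
    have h9 : h z - h y = (z - y) * dslope h y z := by
      have := sub_smul_dslope h y z
      rw [smul_eq_mul] at this
      exact this.symm
    rw [h9, norm_mul, ← dist_eq_norm, hzr]
    gcongr
  have h10 : DiffContOnCl ℂ h (ball y r) := by
    refine (hd.mono ?_).diffContOnCl
    rw [closure_ball y hr0.ne']
    exact closedBall_subset_ball hrδ
  have hder0 : deriv h y ≠ 0 := by
    intro h0
    rw [h0, norm_zero] at hder
    linarith
  have h11 : HasDerivAt h (deriv h y) y := (hd.differentiableAt (ball_mem_nhds y hδ)).hasDerivAt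
  have h12 : ∃ᶠ z in 𝓝 y, h z ≠ h y :=
    (h11.eventually_ne (c := h y) hder0).frequently.filter_mono nhdsWithin_le_nhds
  exact (h10.ball_subset_image_closedBall hr0 h5 h12).trans
    (image_mono (closedBall_subset_ball hrδ))

/-- porous sets are null sets -/
theorem null_of_porous {N : Set ℂ} (hN : MeasurableSet N) {q : ℝ} (hq : 0 < q)
    (h : ∀ z ∈ N, ∀ ε > 0, ∃ (r : ℝ) (p : ℂ), 0 < r ∧ r < ε ∧ dist z p ≤ r ∧
      ∀ s ∈ closedBall p (q * r), s ∉ N) : volume N = 0 := by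
  have h1 := IsUnifLocDoublingMeasure.ae_tendsto_measure_inter_div (volume : Measure ℂ) N (1 / q)
  have h2 : ∀ᵐ x ∂(volume.restrict N), False := by
    filter_upwards [h1, ae_restrict_mem hN] with z hz hzN
    have h3 : ∀ j : ℕ, ∃ (r : ℝ) (p : ℂ), 0 < r ∧ r < 1 / ((j : ℝ) + 1) ∧ dist z p ≤ r ∧
      ∀ s ∈ closedBall p (q * r), s ∉ N := fun j => h z hzN _ (by positivity)
    choose r p hr0 hr1 hrp hs using h3
    have h4 : Tendsto r atTop (𝓝 0) :=
      squeeze_zero (fun j => (hr0 j).le) (fun j => (hr1 j).le)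
        tendsto_one_div_add_atTop_nhds_zero_nat
    have h5 : Tendsto (fun j => q * r j) atTop (𝓝[>] 0) := by
      rw [tendsto_nhdsWithin_iff]
      refine ⟨?_, Eventually.of_forall fun j => mul_pos hq (hr0 j)⟩
      have := h4.const_mul q
      rwa [mul_zero] at this
    have h6 := hz p (fun j => q * r j) h5 (Eventually.of_forall fun j => by
      rw [mem_closedBall]
      calc dist z (p j) ≤ r j := hrp j
        _ = 1 / q * (q * r j) := by field_simp)
    have h7 : (fun j => volume (N ∩ closedBall (p j) (q * r j)) /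
        volume (closedBall (p j) (q * r j))) = fun _ => (0 : ENNReal) := by
      funext j
      have h8 : N ∩ closedBall (p j) (q * r j) = ∅ := by
        rw [Set.eq_empty_iff_forall_notMem]
        rintro s ⟨hs1, hs2⟩
        exact hs j s hs2 hs1
      rw [h8, measure_empty, ENNReal.zero_div]
    rw [h7] at h6
    exact zero_ne_one (tendsto_nhds_unique tendsto_const_nhds h6)
  rw [← Measure.restrict_eq_zero]
  have h9 : ae (volume.restrict N) = ⊥ := Filter.eventually_false_iff_eq_bot.1 h2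
  exact ae_eq_bot.1 h9

/-- An expanding invariant compact set `N` of the plane for the map `f` of the sphere, whose iterates
are given near `N` by the analytic functions `g n`: the inverse branches are defined on discs of
radius `δ` and bounded by `B`, and the orbits of the points outside `N` are finally far from `N`. -/
structure Exp (f : OnePoint ℂ → OnePoint ℂ) (g : ℕ → ℂ → ℂ) (N : Set ℂ) (δ B : ℝ) : Prop where
  cpt : IsCompact N
  hδ : 0 < δ
  hB : 0 < B
  bd : ∀ y ∈ N, ‖y‖ ≤ B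
  map : ∀ n, ∀ y ∈ N, g n y ∈ N
  val : ∀ n, ∀ y ∈ N, ∀ᶠ z : ℂ in 𝓝 y, f^[n] (z : OnePoint ℂ) = (g n z : OnePoint ℂ)
  an : ∀ n, ∀ y ∈ N, AnalyticAt ℂ (g n) y
  br : ∀ n, ∀ x ∈ N, ∃ h : ℂ → ℂ, DifferentiableOn ℂ h (ball (g n x) δ) ∧ h (g n x) = x ∧
    ∀ s ∈ ball (g n x) δ, f^[n] (h s : OnePoint ℂ) = (s : OnePoint ℂ) ∧ ‖h s‖ ≤ B
  back : ∀ n, ∀ z : ℂ, ∀ y ∈ N, f^[n] (z : OnePoint ℂ) = (y : OnePoint ℂ) → z ∈ N
  far : ∀ w : ℂ, w ∉ N → ∀ᶠ n in atTop, ∀ y ∈ N, ∀ s ∈ ball y δ,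
    f^[n] (w : OnePoint ℂ) ≠ (s : OnePoint ℂ)

namespace Exp

variable {f : OnePoint ℂ → OnePoint ℂ} {g : ℕ → ℂ → ℂ} {N : Set ℂ} {δ B : ℝ}

/-- the derivative of an inverse branch -/
theorem mul_deriv (E : Exp f g N δ B) {n : ℕ} {x : ℂ} (hx : x ∈ N) {h : ℂ → ℂ}
    (hd : DifferentiableOn ℂ h (ball (g n x) δ)) (hx' : h (g n x) = x)
    (hinv : ∀ s ∈ ball (g n x) δ, f^[n] (h s : OnePoint ℂ) = (s : OnePoint ℂ)) :
    deriv (g n) x * deriv h (g n x) = 1 := by
  have hy : g n x ∈ ball (g n x) δ := mem_ball_self E.hδ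
  have h1 : HasDerivAt h (deriv h (g n x)) (g n x) :=
    (hd.differentiableAt (ball_mem_nhds _ E.hδ)).hasDerivAt
  have h0 : HasDerivAt (g n) (deriv (g n) (h (g n x))) (h (g n x)) := by
    rw [hx']
    exact (E.an n x hx).differentiableAt.hasDerivAt
  have h2 : HasDerivAt (g n ∘ h) (deriv (g n) (h (g n x)) * deriv h (g n x)) (g n x) :=
    h0.comp (g n x) h1
  have hc : Tendsto h (𝓝 (g n x)) (𝓝 x) := by
    have := h1.continuousAt.tendsto
    rwa [hx'] at this
  have h3 : g n ∘ h =ᶠ[𝓝 (g n x)] id := by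
    filter_upwards [ball_mem_nhds _ E.hδ, hc.eventually (E.val n x hx)] with s hs hv
    have h4 := hinv s hs
    rw [hv] at h4
    exact OnePoint.coe_injective h4
  have h5 := (h2.congr_of_eventuallyEq h3.symm).unique (hasDerivAt_id (g n x))
  rwa [hx'] at h5

theorem deriv_ne (E : Exp f g N δ B) (n : ℕ) {x : ℂ} (hx : x ∈ N) : deriv (g n) x ≠ 0 := by
  obtain ⟨h, hd, hx', hinv⟩ := E.br n x hx
  have h1 := E.mul_deriv hx hd hx' fun s hs => (hinv s hs).1
  intro h0
  rw [h0, zero_mul] at h1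
  exact zero_ne_one h1

/-- the set has empty interior -/
theorem empty_int (E : Exp f g N δ B) {x₀ : ℂ} {r₀ : ℝ} (hr₀ : 0 < r₀) (hball : ball x₀ r₀ ⊆ N) :
    False := by
  have hcl : IsClosed N := E.cpt.isClosed
  have hδ0 := E.hδ
  have hB0 := E.hB
  set C₀ : ℝ := B / (r₀ / 2) with hC₀
  have hC₀0 : 0 < C₀ := by positivity
  have hx₀N : x₀ ∈ N := hball (mem_ball_self hr₀)
  have hbd : ∀ n : ℕ, ‖deriv (g n) x₀‖ ≤ C₀ := by
    intro n
    have hsub : closedBall x₀ (r₀ / 2) ⊆ N :=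
      (closedBall_subset_ball (by linarith)).trans hball
    refine Complex.norm_deriv_le_of_forall_mem_sphere_norm_le (by linarith) ?_ ?_
    · apply DifferentiableOn.diffContOnCl
      rw [closure_ball x₀ (by linarith : r₀ / 2 ≠ 0)]
      exact fun z hz => (E.an n z (hsub hz)).differentiableAt.differentiableWithinAt
    · exact fun z hz => E.bd _ (E.map n z (hsub (sphere_subset_closedBall hz)))
  obtain ⟨ρ, hρ, hcov⟩ := cover (δ := δ) (B := B) (m := 1 / C₀) hδ0 hB0 (by positivity)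
  have hmap : ∀ n : ℕ, ∀ x ∈ N, ‖deriv (g n) x‖ ≤ C₀ →
      ∀ w ∈ ball x ρ, ∃ s ∈ ball (g n x) δ, f^[n] (w : OnePoint ℂ) = (s : OnePoint ℂ) := by
    intro n x hx hder w hw
    obtain ⟨h, hd, hy, hinv⟩ := E.br n x hx
    have h1 := E.mul_deriv hx hd hy fun s hs => (hinv s hs).1
    have h2 : 1 / C₀ ≤ ‖deriv h (g n x)‖ := by
      rw [div_le_iff₀ hC₀0]
      have h3 : ‖deriv (g n) x‖ * ‖deriv h (g n x)‖ = 1 := by rw [← norm_mul, h1, norm_one]
      nlinarith [norm_nonneg (deriv h (g n x))]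
    have h4 := hcov h _ hd (fun s hs => (hinv s hs).2) h2
    rw [hy] at h4
    obtain ⟨s, hs, rfl⟩ := h4 hw
    exact ⟨s, hs, (hinv s hs).1⟩
  set η : ℝ := min (ρ / 2) (r₀ / 2) with hη
  have hη0 : 0 < η := by positivity
  have hηρ : η < ρ := lt_of_le_of_lt (min_le_left _ _) (by linarith)
  have hηr : η < r₀ := lt_of_le_of_lt (min_le_right _ _) (by linarith)
  have hne : Nᶜ.Nonempty := by
    by_contra h
    rw [not_nonempty_iff_eq_empty, compl_empty_iff] at h
    have h1 := E.cpt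
    rw [h] at h1
    exact NoncompactSpace.noncompact_univ (X := ℂ) h1
  set U : Set ℂ := {x | η < infDist x Nᶜ} with hU
  have hcont : Continuous fun x : ℂ => infDist x Nᶜ := continuous_infDist_pt _
  have hN_of : ∀ x, 0 < infDist x Nᶜ → x ∈ N := by
    intro x hx
    by_contra h
    rw [infDist_zero_of_mem (s := Nᶜ) h] at hx
    exact lt_irrefl _ hx
  have hclU : closure U ⊆ {x | η ≤ infDist x Nᶜ} :=
    closure_lt_subset_le continuous_const hcont
  have hclN : closure U ⊆ N := fun x hx => hN_of x (hη0.trans_le (hclU hx))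
  have hx₀U : x₀ ∈ U := by
    show η < infDist x₀ Nᶜ
    refine hηr.trans_le ((le_infDist hne).mpr fun y hy => ?_)
    by_contra hlt
    rw [not_le, dist_comm] at hlt
    exact hy (hball hlt)
  have hUb : Bornology.IsBounded U :=
    E.cpt.isBounded.subset (subset_closure.trans hclN)
  have hz : ∀ n : ℕ, ∃ z ∈ frontier U, ‖deriv (g n) z‖ ≤ C₀ := by
    intro n
    have hd : DiffContOnCl ℂ (fun z => (deriv (g n) z)⁻¹) U := by
      refine DifferentiableOn.diffContOnCl fun z hz => ?_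
      have h1 : DifferentiableAt ℂ (deriv (g n)) z := (E.an n z (hclN hz)).deriv.differentiableAt
      exact (h1.inv (E.deriv_ne n (hclN hz))).differentiableWithinAt
    obtain ⟨z, hzf, hmax⟩ := Complex.exists_mem_frontier_isMaxOn_norm hUb ⟨x₀, hx₀U⟩ hd
    refine ⟨z, hzf, ?_⟩
    have h1 := hmax (subset_closure hx₀U)
    have h2 : ‖(deriv (g n) x₀)⁻¹‖ ≤ ‖(deriv (g n) z)⁻¹‖ := h1
    rw [norm_inv, norm_inv] at h2
    have hz0 : 0 < ‖deriv (g n) z‖ :=
      norm_pos_iff.mpr (E.deriv_ne n (hclN (frontier_subset_closure hzf)))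
    have hx0 : 0 < ‖deriv (g n) x₀‖ := norm_pos_iff.mpr (E.deriv_ne n hx₀N)
    exact ((inv_le_inv₀ hx0 hz0).mp h2).trans (hbd n)
  choose z hzf hzd using hz
  have hcpt : IsCompact (frontier U) :=
    hUb.isCompact_closure.of_isClosed_subset isClosed_frontier frontier_subset_closure
  obtain ⟨a, ha, φ, hφ, hlim⟩ := hcpt.tendsto_subseq hzf
  have ha1 : infDist a Nᶜ < ρ := by
    have h1 : a ∈ {x | η = infDist x Nᶜ} := frontier_lt_subset_eq continuous_const hcont ha
    have h2 : η = infDist a Nᶜ := h1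
    rw [← h2]; exact hηρ
  obtain ⟨q, hq, hqa⟩ := (infDist_lt_iff hne).mp ha1
  have e1 := hφ.tendsto_atTop.eventually (E.far q hq)
  have e2 : ∀ᶠ k : ℕ in atTop, dist (z (φ k)) q < ρ := by
    have h1 : Tendsto (fun k => dist ((z ∘ φ) k) q) atTop (𝓝 (dist a q)) :=
      hlim.dist tendsto_const_nhds
    exact h1.eventually (gt_mem_nhds hqa)
  obtain ⟨k, hk1, hk2⟩ := (e1.and e2).exists
  have hzN : z (φ k) ∈ N := hclN (frontier_subset_closure (hzf _))
  obtain ⟨s, hs, hs'⟩ := hmap (φ k) (z (φ k)) hzN (hzd _) q (by rw [mem_ball, dist_comm]; exact hk2)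
  exact hk1 _ (E.map (φ k) _ hzN) s hs hs'

/-- **The set is a null set.** -/
theorem null (E : Exp f g N δ B) : volume N = 0 := by
  obtain ⟨C0, c0, K⟩ := exists_KC
  have hC1 := K.one_le
  have hc0 := K.pos
  have hδ0 := E.hδ
  have hB0 := E.hB
  have hNc : IsCompact N := E.cpt
  have hcl : IsClosed N := hNc.isClosed
  have hint : ∀ (x₀ : ℂ) (r₀ : ℝ), 0 < r₀ → ∃ w ∈ ball x₀ r₀, w ∉ N := by
    intro x₀ r₀ hr₀
    by_contra hcon
    push Not at hcon
    exact E.empty_int hr₀ hcon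
  -- holes of a fixed size
  obtain ⟨κ, hκ0, hκ⟩ : ∃ κ : ℝ, 0 < κ ∧ ∀ y ∈ N, ∃ y' : ℂ, ball y' κ ⊆ ball y (δ / 4) ∧
      ∀ s ∈ ball y' κ, s ∉ N := by
    refine hNc.induction_on (p := fun S => ∃ κ : ℝ, 0 < κ ∧ ∀ y ∈ S, ∃ y' : ℂ,
      ball y' κ ⊆ ball y (δ / 4) ∧ ∀ s ∈ ball y' κ, s ∉ N) ?_ ?_ ?_ ?_
    · exact ⟨1, one_pos, fun y hy => absurd hy (Set.notMem_empty y)⟩
    · rintro s t hst ⟨κ, h1, h2⟩
      exact ⟨κ, h1, fun y hy => h2 y (hst hy)⟩
    · rintro s t ⟨κ, h1, h2⟩ ⟨κ', h1', h2'⟩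
      refine ⟨min κ κ', lt_min h1 h1', ?_⟩
      rintro y (hy | hy)
      · obtain ⟨y', h3, h4⟩ := h2 y hy
        have h5 : ball y' (min κ κ') ⊆ ball y' κ := ball_subset_ball (min_le_left _ _)
        exact ⟨y', h5.trans h3, fun s hs => h4 s (h5 hs)⟩
      · obtain ⟨y', h3, h4⟩ := h2' y hy
        have h5 : ball y' (min κ κ') ⊆ ball y' κ' := ball_subset_ball (min_le_right _ _)
        exact ⟨y', h5.trans h3, fun s hs => h4 s (h5 hs)⟩
    · intro x _
      obtain ⟨w, hw, hwg⟩ := hint x (δ / 8) (by positivity)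
      have h1 : ball x (δ / 8) ∩ Nᶜ ∈ 𝓝 w :=
        (isOpen_ball.inter hcl.isOpen_compl).mem_nhds ⟨hw, hwg⟩
      obtain ⟨κ, hκ, hsub⟩ := Metric.mem_nhds_iff.mp h1
      refine ⟨ball x (δ / 8), mem_nhdsWithin_of_mem_nhds (ball_mem_nhds x (by positivity)),
        κ, hκ, fun y hy => ⟨w, fun s hs => ?_, fun s hs => (hsub hs).2⟩⟩
      have h2 := (hsub hs).1
      rw [mem_ball] at h2 hy ⊢
      have h3 := dist_triangle s x y
      rw [dist_comm x y] at h3
      linarith
  -- the branches contract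
  have hcontr : ∀ z ∈ N, ∀ m : ℝ, 0 < m → ∃ n : ℕ, ∀ h : ℂ → ℂ,
      DifferentiableOn ℂ h (ball (g n z) δ) → h (g n z) = z →
      (∀ s ∈ ball (g n z) δ, f^[n] (h s : OnePoint ℂ) = (s : OnePoint ℂ) ∧ ‖h s‖ ≤ B) →
      ‖deriv h (g n z)‖ < m := by
    intro z hz m hm
    obtain ⟨ρ, hρ, hcov⟩ := cover (δ := δ) (B := B) (m := m) hδ0 hB0 hm
    obtain ⟨w, hw, hwg⟩ := hint z ρ hρ
    obtain ⟨n, hn⟩ := (E.far w hwg).exists
    refine ⟨n, fun h hd hy hinv => ?_⟩
    by_contra hcon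
    rw [not_lt] at hcon
    have h1 := hcov h _ hd (fun s hs => (hinv s hs).2) hcon
    rw [hy] at h1
    obtain ⟨s, hs, hsw⟩ := h1 hw
    have h2 : f^[n] (w : OnePoint ℂ) = (s : OnePoint ℂ) := by rw [← hsw]; exact (hinv s hs).1
    exact hn _ (E.map n z hz) s hs h2
  have hC0 : 0 < C0 := lt_of_lt_of_le one_pos hC1
  refine null_of_porous hcl.measurableSet (q := c0 * κ / (2 * C0 ^ 2 * δ)) (by positivity) ?_
  intro z hz ε hε
  obtain ⟨n, hn⟩ := hcontr z hz (ε / (C0 * δ)) (by positivity)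
  have hyN := E.map n z hz
  obtain ⟨h, hd, hy, hinv⟩ := E.br n z hz
  have hm1 := hn h hd hy hinv
  have hprod : deriv (g n) z * deriv h (g n z) = 1 := E.mul_deriv hz hd hy fun s hs => (hinv s hs).1
  set y : ℂ := g n z with hydef
  set m : ℝ := ‖deriv h y‖ with hmdef
  have hm0 : 0 < m := by
    rw [hmdef, norm_pos_iff]
    intro h0
    rw [h0, mul_zero] at hprod
    exact zero_ne_one hprod
  have hu : Univ h y δ := ⟨hd, fun a ha b hb hab => by
    have h1 := (hinv a ha).1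
    have h2 := (hinv b hb).1
    rw [hab] at h1
    exact OnePoint.coe_injective (h1.symm.trans h2)⟩
  obtain ⟨y', hsub, hgood⟩ := hκ y hyN
  have hy'1 : y' ∈ ball y (δ / 4) := hsub (mem_ball_self hκ0)
  have hy'2 : ‖y' - y‖ ≤ δ / 4 := by
    rw [mem_ball, dist_eq_norm] at hy'1
    exact hy'1.le
  have hlip := K.lip hδ0 hu hy'2
  have hdist := (K.kdist h y δ hδ0 hu y' hy'2).2
  have hu' : Univ h y' κ := hu.mono (hsub.trans (ball_subset_ball (by linarith)))
  refine ⟨C0 * m * δ, h y', by positivity, ?_, ?_, ?_⟩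
  · rw [lt_div_iff₀ (by positivity)] at hm1
    calc C0 * m * δ = m * (C0 * δ) := by ring
      _ < ε := hm1
  · rw [dist_comm, dist_eq_norm]
    rw [hy] at hlip
    calc ‖h y' - z‖ ≤ C0 * m * ‖y' - y‖ := hlip
      _ ≤ C0 * m * δ := by
        gcongr
        linarith
  · intro s hs hsN
    have hqr : c0 * κ / (2 * C0 ^ 2 * δ) * (C0 * m * δ) = c0 * κ * (m / C0) / 2 := by
      field_simp
    rw [hqr, mem_closedBall, dist_comm, dist_eq_norm] at hs
    by_cases hsi : ∀ w ∈ ball y' κ, h w ≠ s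
    · have h1 := K.komit h y' κ hκ0 hu' s hsi
      have h2 : m / C0 ≤ ‖deriv h y'‖ := by
        rw [div_le_iff₀ hC0]
        linarith
      have h3 : c0 * κ * (m / C0) ≤ c0 * κ * ‖deriv h y'‖ := by gcongr
      have h4 : 0 < c0 * κ * (m / C0) := by positivity
      linarith
    · push Not at hsi
      obtain ⟨w, hw, hws⟩ := hsi
      have hwb : w ∈ ball y δ := ball_subset_ball (by linarith) (hsub hw)
      have h1 : f^[n] (s : OnePoint ℂ) = (w : OnePoint ℂ) := by
        rw [← hws]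
        exact (hinv w hwb).1
      -- the image of `s` lies in `N`
      have h2 : ∃ v ∈ N, f^[n] (s : OnePoint ℂ) = (v : OnePoint ℂ) :=
        ⟨g n s, E.map n s hsN, (E.val n s hsN).self_of_nhds⟩
      obtain ⟨v, hv, hv'⟩ := h2
      rw [h1] at hv'
      have h3 : w = v := OnePoint.coe_injective hv'
      exact hgood w hw (h3 ▸ hv)

end Exp

end Pool.Agent.Helper32.HN
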