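import Mathlib
import Pool.Agent.Helper405.ConvA
import Pool.Agent.H790R3.RB.TSP
import Pool.Agent.H790R3.RB.TWR
import Pool.Agent.H790R3.RB.TINJL
import Pool.Agent.H790R3.RB.TPOLY

/-!
# Critical points of rational maps
-/

set_option autoImplicit false

open Topology Filter Metric Set
open scoped OnePoint

namespace Pool.Agent.Helper32.HN

open Pool.Agent.H790R3.RB

/-- At a zero of the Jacobian determinant the map is not locally injective. -/
theorem wr_ne_of_inj {d : ℕ} {x : CV d} (hd : 2 ≤ d) (hND : ND x) {p : ℂ × ℂ} (hp : p ≠ 0)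
    {U : Set (OnePoint ℂ)} (hU : U ∈ 𝓝 (pr p)) (hinj : InjOn (sp x) U) : wr x p ≠ 0 := by
  intro hw
  obtain ⟨-, hsp, hprcr, -, -⟩ := SP d x (by omega) hND
  obtain ⟨-, -, hjac⟩ := WR d x hd
  obtain ⟨e, he, -⟩ := INJL.dir hp
  set P := hF x p with hP
  have hP0 : P ≠ 0 := fun h => hp (hND p h)
  obtain ⟨f, hf, -⟩ := INJL.dir hP0
  set D := fderiv ℂ (hF x) p e with hD
  have hd0 : (d : ℂ) ≠ 0 := by
    have : d ≠ 0 := by omega
    exact_mod_cast this
  have hcr : cr D P = 0 := by
    have h1 := hjac p p e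
    rw [INJL.euler, cr_smul_left, ← hP, ← hD, hw, zero_mul] at h1
    rcases mul_eq_zero.1 h1 with h2 | h2
    · exact absurd h2 hd0
    · rw [cr_comm, h2, neg_zero]
  have hq0 : ∀ t : ℂ, p + t • e ≠ 0 := by
    intro t h
    have h1 : cr (p + t • e) e = cr p e := by
      simp only [cr, Prod.fst_add, Prod.snd_add, Prod.smul_fst, Prod.smul_snd, smul_eq_mul]
      ring
    rw [h] at h1
    apply he
    rw [← h1]
    simp [cr]
  have hF0 : ∀ t : ℂ, hF x (p + t • e) ≠ 0 := fun t h => hq0 t (hND _ h)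
  have hFd : Differentiable ℂ (fun t : ℂ => hF x (p + t • e)) := by
    have h1 : Differentiable ℂ (hF x) := (INJL.hF_cd x).differentiable (by norm_num)
    exact h1.comp (by fun_prop)
  have hcrd : ∀ w : ℂ × ℂ, Differentiable ℂ (fun t : ℂ => cr (hF x (p + t • e)) w) := by
    intro w
    unfold cr
    exact (hFd.fst.mul_const _).sub (hFd.snd.mul_const _)
  -- a neighbourhood of zero
  have hpr : ContinuousAt (fun t : ℂ => pr (p + t • e)) 0 := by
    have h1 : ContinuousAt pr (p + (0 : ℂ) • e) := SP.continuousAt_pr (hq0 0)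
    have h2 : ContinuousAt (fun t : ℂ => p + t • e) 0 := by fun_prop
    exact ContinuousAt.comp (f := fun t : ℂ => p + t • e) (g := pr) h1 h2
  have e0 : p + (0 : ℂ) • e = p := by simp
  have h1 : ∀ᶠ t : ℂ in 𝓝 0, pr (p + t • e) ∈ U := by
    have h2 := hpr.tendsto
    simp only [e0] at h2
    exact h2.eventually hU
  have h2 : ∀ᶠ t : ℂ in 𝓝 0, cr (hF x (p + t • e)) f ≠ 0 := by
    refine (hcrd f).continuous.continuousAt.eventually_ne ?_
    rw [e0]; exact hf
  obtain ⟨δ, hδ, hsub⟩ := Metric.eventually_nhds_iff_ball.1 (h1.and h2)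
  set φ : ℂ → ℂ := fun t => cr (hF x (p + t • e)) P / cr (hF x (p + t • e)) f with hφ
  have hφd : DifferentiableOn ℂ φ (ball 0 δ) := fun t ht =>
    ((hcrd P t).div (hcrd f t) (hsub t ht).2).differentiableWithinAt
  have hφi : InjOn φ (ball 0 δ) := by
    intro t ht t' ht' htt
    have h3 := (hsub t ht).2
    have h4 := (hsub t' ht').2
    simp only [hφ] at htt
    rw [div_eq_div_iff h3 h4] at htt
    -- the two images are parallel
    have h5 : cr (hF x (p + t • e)) (hF x (p + t' • e)) * cr P f = 0 := by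
      have : cr (hF x (p + t • e)) (hF x (p + t' • e)) * cr P f =
          cr (hF x (p + t • e)) P * cr (hF x (p + t' • e)) f -
          cr (hF x (p + t' • e)) P * cr (hF x (p + t • e)) f := by
        unfold cr; ring
      rw [this, htt, sub_self]
    have h6 : cr (hF x (p + t • e)) (hF x (p + t' • e)) = 0 := by
      rcases mul_eq_zero.1 h5 with h | h
      · exact h
      · exact absurd h hf
    have h7 : sp x (pr (p + t • e)) = sp x (pr (p + t' • e)) := by
      have a1 := hsp (p + t • e) (hq0 t) 1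
      have a2 := hsp (p + t' • e) (hq0 t') 1
      simp only [Function.iterate_one] at a1 a2
      rw [a1, a2]
      exact (hprcr _ _ (hF0 t) (hF0 t')).2 h6
    have h8 := hinj (hsub t ht).1 (hsub t' ht').1 h7
    rw [hprcr _ _ (hq0 t) (hq0 t')] at h8
    have h9 : cr (p + t • e) (p + t' • e) = (t' - t) * cr p e := by
      simp only [cr, Prod.fst_add, Prod.snd_add, Prod.smul_fst, Prod.smul_snd, smul_eq_mul]
      ring
    rw [h9] at h8
    rcases mul_eq_zero.1 h8 with h | h
    · exact (sub_eq_zero.1 h).symm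
    · exact absurd h he
  have hne := Pool.Agent.Helper405.Conv.deriv_ne_zero_of_injOn isOpen_ball hφd hφi
    (mem_ball_self hδ)
  apply hne
  have hlin : ∀ w : ℂ × ℂ, HasDerivAt (fun t : ℂ => cr (hF x (p + t • e)) w) (cr D w) 0 := by
    intro w
    have h3 := (INJL.along x p e).hasDerivAt
    have h4 : HasDerivAt (fun t : ℂ => (hF x (p + t • e)).1) D.1 0 := h3.fst
    have h5 : HasDerivAt (fun t : ℂ => (hF x (p + t • e)).2) D.2 0 := h3.snd
    unfold cr
    exact (h4.mul_const _).sub (h5.mul_const _)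
  have hden : cr (hF x (p + (0 : ℂ) • e)) f ≠ 0 := by rw [e0]; exact hf
  have h3 := (hlin P).div (hlin f) hden
  have hnum0 : cr (hF x (p + (0 : ℂ) • e)) P = 0 := by rw [e0]; exact cr_self _
  rw [hnum0, hcr] at h3
  have h4 := h3.deriv
  simp only [zero_mul, sub_zero, zero_div] at h4
  exact h4

/-- Every rational map of degree at least two has a critical point. -/
theorem exists_crit {d : ℕ} (hd : 2 ≤ d) (x : CV d) : ∃ p : ℂ × ℂ, p ≠ 0 ∧ wr x p = 0 := by
  obtain ⟨-, ⟨W, hdeg, hW, hW2⟩, -⟩ := WR d x hd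
  by_cases h : wr x (1, 0) = 0
  · exact ⟨(1, 0), fun h => one_ne_zero (congrArg Prod.fst h), h⟩
  · have h1 : W.coeff (2 * d - 2) ≠ 0 := by rw [hW2]; exact h
    have h4 := Polynomial.le_natDegree_of_ne_zero h1
    have h2 : W.degree ≠ 0 := by
      intro h3
      have h5 : W.natDegree = 0 := Polynomial.natDegree_eq_zero_iff_degree_le_zero.2 h3.le
      omega
    obtain ⟨z, hz⟩ := IsAlgClosed.exists_root W h2
    refine ⟨(z, 1), fun h => one_ne_zero (congrArg Prod.snd h), ?_⟩
    rw [← hW]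
    exact hz

/-- The polynomial of the restriction of `cr (hF x ·) v` to an affine line. -/
theorem line_poly {d : ℕ} (x : CV d) (v p q : ℂ × ℂ) : ∃ A : Polynomial ℂ, A.natDegree ≤ d ∧
    (∀ t : ℂ, A.eval t = cr (hF x (p + t • q)) v) ∧ A.coeff d = cr (hF x q) v := by
  set L1 : Polynomial ℂ := Polynomial.C q.1 * Polynomial.X + Polynomial.C p.1 with hL1
  set L2 : Polynomial ℂ := Polynomial.C q.2 * Polynomial.X + Polynomial.C p.2 with hL2
  have d1 : L1.natDegree ≤ 1 := Polynomial.natDegree_linear_le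
  have d2 : L2.natDegree ≤ 1 := Polynomial.natDegree_linear_le
  have c1 : L1.coeff 1 = q.1 := by simp [hL1]
  have c2 : L2.coeff 1 = q.2 := by simp [hL2]
  have e1 : ∀ t : ℂ, L1.eval t = (p + t • q).1 := by
    intro t
    simp [hL1]
    ring
  have e2 : ∀ t : ℂ, L2.eval t = (p + t • q).2 := by
    intro t
    simp [hL2]
    ring
  have key : ∀ c : Fin (d + 1) → ℂ, ∃ A : Polynomial ℂ, A.natDegree ≤ d ∧
      (∀ t : ℂ, A.eval t = ∑ j : Fin (d + 1), c j * ((p + t • q).1 ^ (j : ℕ) *
        (p + t • q).2 ^ (d - (j : ℕ)))) ∧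
      A.coeff d = ∑ j : Fin (d + 1), c j * (q.1 ^ (j : ℕ) * q.2 ^ (d - (j : ℕ))) := by
    intro c
    refine ⟨POLY.Q c L1 L2, ?_, ?_, ?_⟩
    · have := POLY.Q_deg c d1 d2
      rwa [mul_one] at this
    · intro t
      rw [POLY.Q_eval, e1, e2]
    · have := POLY.Q_coeff c d1 d2
      rw [mul_one, c1, c2] at this
      exact this
  obtain ⟨A, hA1, hA2, hA3⟩ := key (fun j => x (0, j))
  obtain ⟨B, hB1, hB2, hB3⟩ := key (fun j => x (1, j))
  refine ⟨A * Polynomial.C v.2 - B * Polynomial.C v.1, ?_, ?_, ?_⟩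
  · refine (Polynomial.natDegree_sub_le _ _).trans (max_le ?_ ?_)
    · exact (Polynomial.natDegree_mul_C_le _ _).trans hA1
    · exact (Polynomial.natDegree_mul_C_le _ _).trans hB1
  · intro t
    rw [Polynomial.eval_sub, Polynomial.eval_mul, Polynomial.eval_mul, Polynomial.eval_C,
      Polynomial.eval_C, hA2, hB2]
    rfl
  · rw [Polynomial.coeff_sub, Polynomial.coeff_mul_C, Polynomial.coeff_mul_C, hA3, hB3]
    rfl

/-- a polynomial of degree at least one has a root -/
theorem exists_root' {A : Polynomial ℂ} {n : ℕ} (hn : 1 ≤ n) (h : A.coeff n ≠ 0) :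
    ∃ t : ℂ, A.eval t = 0 := by
  have h4 := Polynomial.le_natDegree_of_ne_zero h
  have h2 : A.degree ≠ 0 := by
    intro h3
    have h5 : A.natDegree = 0 := Polynomial.natDegree_eq_zero_iff_degree_le_zero.2 h3.le
    omega
  exact IsAlgClosed.exists_root A h2

/-- Rational maps are surjective. -/
theorem surj {d : ℕ} (hd : 1 ≤ d) (x : CV d) (v : ℂ × ℂ) :
    ∃ p : ℂ × ℂ, p ≠ 0 ∧ cr (hF x p) v = 0 := by
  obtain ⟨A, -, hA, hA'⟩ := line_poly x v (0, 1) (1, 0)
  by_cases h : cr (hF x (1, 0)) v = 0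
  · exact ⟨(1, 0), fun h => one_ne_zero (congrArg Prod.fst h), h⟩
  · obtain ⟨t, ht⟩ := exists_root' hd (by rw [hA']; exact h)
    refine ⟨((0, 1) : ℂ × ℂ) + t • ((1, 0) : ℂ × ℂ), ?_, ?_⟩
    · intro h
      have := congrArg Prod.snd h
      simp at this
    · rw [← hA]; exact ht

/-- The value of a map of degree at least two at a noncritical point is taken at another point. -/
theorem second {d : ℕ} {x : CV d} (hd : 2 ≤ d) {p : ℂ × ℂ} (hp : p ≠ 0)
    (hw : wr x p ≠ 0) : ∃ p' : ℂ × ℂ, cr p' p ≠ 0 ∧ cr (hF x p') (hF x p) = 0 := by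
  obtain ⟨-, -, hjac⟩ := WR d x hd
  obtain ⟨e, he, -⟩ := INJL.dir hp
  obtain ⟨A, hA0, hA, hA'⟩ := line_poly x (hF x p) p e
  by_cases h : cr (hF x e) (hF x p) = 0
  · refine ⟨e, ?_, h⟩
    rw [cr_comm]
    exact neg_ne_zero.2 he
  have hD : cr (fderiv ℂ (hF x) p e) (hF x p) ≠ 0 := by
    have h1 := hjac p p e
    rw [INJL.euler, cr_smul_left] at h1
    intro h2
    rw [cr_comm, h2] at h1
    have h3 : wr x p * cr p e = 0 := by rw [← h1]; ring
    exact (mul_ne_zero hw he) h3
  have h0 : A.eval 0 = 0 := by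
    rw [hA]
    simp [cr_self]
  have h1 : A.derivative.eval 0 ≠ 0 := by
    have h2 : HasDerivAt (fun t : ℂ => A.eval t) (A.derivative.eval 0) 0 := A.hasDerivAt 0
    have h3 := (INJL.along x p e).hasDerivAt
    have h4 : HasDerivAt (fun t : ℂ => (hF x (p + t • e)).1) (fderiv ℂ (hF x) p e).1 0 := h3.fst
    have h5 : HasDerivAt (fun t : ℂ => (hF x (p + t • e)).2) (fderiv ℂ (hF x) p e).2 0 := h3.snd
    have h6 : HasDerivAt (fun t : ℂ => A.eval t) (cr (fderiv ℂ (hF x) p e) (hF x p)) 0 := by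
      have h7 : (fun t : ℂ => A.eval t) = fun t : ℂ =>
          (hF x (p + t • e)).1 * (hF x p).2 - (hF x (p + t • e)).2 * (hF x p).1 := by
        funext t
        rw [hA]
        rfl
      rw [h7]
      exact (h4.mul_const _).sub (h5.mul_const _)
    rw [h2.unique h6]
    exact hD
  obtain ⟨A1, rfl⟩ : Polynomial.X ∣ A := by
    rw [Polynomial.X_dvd_iff, Polynomial.coeff_zero_eq_eval_zero]
    exact h0
  have h2 : A1.eval 0 ≠ 0 := by
    rw [Polynomial.derivative_mul] at h1
    simpa using h1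
  have h3 : A1.coeff (d - 1) ≠ 0 := by
    have h4 : d = (d - 1) + 1 := by omega
    intro h5
    apply h
    rw [← hA']
    have : (Polynomial.X * A1).coeff ((d - 1) + 1) = A1.coeff (d - 1) := Polynomial.coeff_X_mul _ _
    rw [← h4] at this
    rw [this]
    exact h5
  obtain ⟨t, ht⟩ := exists_root' (by omega : 1 ≤ d - 1) h3
  have ht0 : t ≠ 0 := by
    intro h4
    rw [h4] at ht
    exact h2 ht
  refine ⟨p + t • e, ?_, ?_⟩
  · have h4 : cr (p + t • e) p = - (t * cr p e) := by
      simp only [cr, Prod.fst_add, Prod.snd_add, Prod.smul_fst, Prod.smul_snd, smul_eq_mul]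
      ring
    rw [h4]
    exact neg_ne_zero.2 (mul_ne_zero ht0 he)
  · rw [← hA, Polynomial.eval_mul, ht, mul_zero]

end Pool.Agent.Helper32.HN
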