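import Mathlib
import Pool.Agent.Helper32.HN.Abs
import Pool.Agent.H713R3.ZA.TROOT
import Pool.Agent.H790R3.RB.TSP
import Pool.Agent.H790R3.RB.TWR
import Pool.Agent.H790R3.RB.TCHAIN

/-!
# Hyperbolic rational maps: the set of the points which are not attracted is a null set

In this file infinity is a point with uniformly attracted neighbourhood.
-/

set_option autoImplicit false

open Topology Filter Metric Set MeasureTheory
open scoped OnePoint

namespace Pool.Agent.Helper32.HN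

open Pool.Agent.H790R3.RB Pool.Agent.H713R3.ZA

/-- the points whose orbits are finally in `V` -/
def Gs (f : OnePoint ℂ → OnePoint ℂ) (V : Set (OnePoint ℂ)) : Set (OnePoint ℂ) :=
  {w | ∀ᶠ n in atTop, f^[n] w ∈ V}

theorem mem_Gs_iter {f : OnePoint ℂ → OnePoint ℂ} {V : Set (OnePoint ℂ)} (n : ℕ)
    (w : OnePoint ℂ) : f^[n] w ∈ Gs f V ↔ w ∈ Gs f V := by
  simp only [Gs, mem_ofPred_eq, eventually_atTop]
  constructor
  · rintro ⟨a, h⟩
    refine ⟨a + n, fun b hb => ?_⟩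
    have := h (b - n) (by omega)
    rwa [← Function.iterate_add_apply, Nat.sub_add_cancel (by omega)] at this
  · rintro ⟨a, h⟩
    refine ⟨a, fun b hb => ?_⟩
    rw [← Function.iterate_add_apply]
    exact h (b + n) (by omega)

/-- the data: a closed set `V` of attracted points which attracts the critical points -/
structure Dat {d : ℕ} (x : CV d) (V : Set (OnePoint ℂ)) : Prop where
  hd : 2 ≤ d
  nd : ND x
  cl : IsClosed V
  op : IsOpen (Gs (sp x) V)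
  sub : V ⊆ Gs (sp x) V
  crit : ∀ p : ℂ × ℂ, p ≠ 0 → wr x p = 0 → pr p ∈ Gs (sp x) V

theorem pair_ne (z : ℂ) : ((z, 1) : ℂ × ℂ) ≠ 0 := fun h => one_ne_zero (congrArg Prod.snd h)

theorem pr_pair (z : ℂ) : pr (z, 1) = (z : OnePoint ℂ) := by
  rw [SP.pr_ne (by simp)]
  simp

/-- the critical points form a finite set, as soon as there is a noncritical point -/
theorem crit_finite {d : ℕ} {x : CV d} (hd : 2 ≤ d) {p₀ : ℂ × ℂ} (h0 : wr x p₀ ≠ 0) :
    {w : OnePoint ℂ | ∃ p : ℂ × ℂ, p ≠ 0 ∧ wr x p = 0 ∧ w = pr p}.Finite := by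
  obtain ⟨hsm, ⟨W, -, hW, hW2⟩, -⟩ := WR d x hd
  have hWne : W ≠ 0 := by
    intro h
    by_cases h2 : p₀.2 = 0
    · have h3 : p₀ = p₀.1 • ((1, 0) : ℂ × ℂ) := by
        ext <;> simp [h2]
      rw [h, Polynomial.coeff_zero] at hW2
      rw [h3, hsm, ← hW2, mul_zero] at h0
      exact h0 rfl
    · have h3 : p₀ = p₀.2 • ((p₀.1 / p₀.2, 1) : ℂ × ℂ) := by
        ext
        · simp only [Prod.smul_fst, smul_eq_mul]; field_simp
        · simp
      rw [h3, hsm, ← hW, h, Polynomial.eval_zero, mul_zero] at h0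
      exact h0 rfl
  have hfin : (insert ∞ ((fun z : ℂ => (z : OnePoint ℂ)) '' {z : ℂ | W.eval z = 0})).Finite := by
    apply Set.Finite.insert
    apply Set.Finite.image
    have : {z : ℂ | W.eval z = 0} = {z : ℂ | W.IsRoot z} := rfl
    rw [this]
    exact Polynomial.finite_setOfPred_isRoot hWne
  refine hfin.subset ?_
  rintro w ⟨p, hp, hw, rfl⟩
  by_cases h2 : p.2 = 0
  · left
    exact SP.pr_zero h2
  · right
    refine ⟨p.1 / p.2, ?_, (SP.pr_ne h2).symm⟩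
    have h3 : p = p.2 • ((p.1 / p.2, 1) : ℂ × ℂ) := by
      ext
      · simp only [Prod.smul_fst, smul_eq_mul]; field_simp
      · simp
    rw [h3, hsm] at hw
    rcases mul_eq_zero.1 hw with h4 | h4
    · exact absurd (eq_zero_of_pow_eq_zero h4) h2
    · show W.eval (p.1 / p.2) = 0
      rw [hW]; exact h4

/-- the value of an iterate at a finite point -/
theorem iter_coe {d : ℕ} {x : CV d} (hd : 1 ≤ d) (hx : ND x) (n : ℕ) (z : ℂ) :
    (sp x)^[n] (z : OnePoint ℂ) = pr ((hF x)^[n] (z, 1)) := by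
  rw [← pr_pair z]
  exact (SP d x hd hx).2.1 _ (pair_ne z) n

theorem iter_eq_coe {d : ℕ} {x : CV d} (hd : 1 ≤ d) (hx : ND x) (n : ℕ) (z s : ℂ) :
    (sp x)^[n] (z : OnePoint ℂ) = (s : OnePoint ℂ) ↔
      ((hF x)^[n] (z, 1)).1 = s * ((hF x)^[n] (z, 1)).2 := by
  rw [iter_coe hd hx, ← pr_pair s,
    (SP d x hd hx).2.2.1 _ _ (hx.iter_ne n (pair_ne z)) (pair_ne s)]
  unfold cr
  simp only [mul_one]
  rw [sub_eq_zero, mul_comm s]

theorem first_diff {d : ℕ} (x : CV d) (n : ℕ) :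
    ContDiff ℂ 1 (fun z : ℂ => (hF x)^[n] ((z, 1) : ℂ × ℂ)) := by
  have h := hF_iter_contDiff d n 1
  have h2 : ContDiff ℂ 1 (fun z : ℂ => ((x, (z, 1)) : CV d × (ℂ × ℂ))) := by fun_prop
  exact h.comp h2

/-- properness -/
theorem proper {d : ℕ} {x : CV d} (hd : 1 ≤ d) (hx : ND x) (n : ℕ) {U K : Set ℂ} (hK : K ⊆ U)
    (hKc : IsCompact K) (hU : ∀ s ∈ U, (sp x)^[n] ∞ ≠ (s : OnePoint ℂ)) (M : ℝ) :
    ∃ B : ℝ, ∀ s ∈ K, ∀ z : ℂ,
      ‖((hF x)^[n] (z, 1)).1 - s * ((hF x)^[n] (z, 1)).2‖ ≤ M → ‖z‖ ≤ B := by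
  by_contra hcon
  push Not at hcon
  have h1 : ∀ k : ℕ, ∃ s ∈ K, ∃ z : ℂ,
      ‖((hF x)^[n] (z, 1)).1 - s * ((hF x)^[n] (z, 1)).2‖ ≤ M ∧ ((k : ℝ) + 1) < ‖z‖ :=
    fun k => hcon _
  choose s hs z hz1 hz2 using h1
  obtain ⟨s₀, hs₀, φ, hφ, hlim⟩ := hKc.tendsto_subseq hs
  have hz0 : ∀ k, z k ≠ 0 := by
    intro k h
    have := hz2 k
    rw [h, norm_zero] at this
    have : (0 : ℝ) ≤ k := Nat.cast_nonneg k
    linarith
  have hinf : Tendsto (fun k => (z (φ k))⁻¹) atTop (𝓝 0) := by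
    rw [tendsto_zero_iff_norm_tendsto_zero]
    have h2 : Tendsto (fun k : ℕ => 1 / ((k : ℝ) + 1)) atTop (𝓝 0) :=
      tendsto_one_div_add_atTop_nhds_zero_nat
    refine squeeze_zero (fun k => norm_nonneg _) (fun k => ?_) (h2.comp hφ.tendsto_atTop)
    rw [norm_inv, Function.comp_apply, one_div]
    have h3 : (0 : ℝ) ≤ (φ k : ℝ) := Nat.cast_nonneg _
    exact inv_anti₀ (by linarith) (hz2 (φ k)).le
  have hc : Continuous (fun q : ℂ × ℂ => ((hF x)^[n] ((1, q.2) : ℂ × ℂ)).1 -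
      q.1 * ((hF x)^[n] ((1, q.2) : ℂ × ℂ)).2) := by
    have h3 := hF_iter_continuous d n
    have h4 : Continuous (fun q : ℂ × ℂ => ((x, (1, q.2)) : CV d × (ℂ × ℂ))) := by fun_prop
    have h5 := h3.comp h4
    exact h5.fst.sub (continuous_fst.mul h5.snd)
  have hlim2 : Tendsto (fun k => ((hF x)^[n] ((1, (z (φ k))⁻¹) : ℂ × ℂ)).1 -
      s (φ k) * ((hF x)^[n] ((1, (z (φ k))⁻¹) : ℂ × ℂ)).2) atTop
      (𝓝 (((hF x)^[n] ((1, 0) : ℂ × ℂ)).1 - s₀ * ((hF x)^[n] ((1, 0) : ℂ × ℂ)).2)) :=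
    (hc.tendsto (s₀, (0 : ℂ))).comp (hlim.prodMk_nhds hinf)
  have hlim3 : Tendsto (fun k => ((hF x)^[n] ((1, (z (φ k))⁻¹) : ℂ × ℂ)).1 -
      s (φ k) * ((hF x)^[n] ((1, (z (φ k))⁻¹) : ℂ × ℂ)).2) atTop (𝓝 0) := by
    rw [tendsto_zero_iff_norm_tendsto_zero]
    have h2 : Tendsto (fun k : ℕ => |M| * ‖(z (φ k))⁻¹‖) atTop (𝓝 0) := by
      have := hinf.norm.const_mul |M|
      simpa using this
    refine squeeze_zero (fun k => norm_nonneg _) (fun k => ?_) h2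
    have e1 : ((1, (z (φ k))⁻¹) : ℂ × ℂ) = (z (φ k))⁻¹ • ((z (φ k), 1) : ℂ × ℂ) := by
      ext
      · simp [hz0 (φ k)]
      · simp
    rw [e1, hF_iter_smul]
    simp only [Prod.smul_fst, Prod.smul_snd, smul_eq_mul]
    have e2 : (z (φ k))⁻¹ ^ d ^ n * ((hF x)^[n] (z (φ k), 1)).1 -
        s (φ k) * ((z (φ k))⁻¹ ^ d ^ n * ((hF x)^[n] (z (φ k), 1)).2) =
        (z (φ k))⁻¹ ^ d ^ n * (((hF x)^[n] (z (φ k), 1)).1 -
          s (φ k) * ((hF x)^[n] (z (φ k), 1)).2) := by ring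
    rw [e2, norm_mul, mul_comm]
    have h3 : ‖(z (φ k))⁻¹‖ ≤ 1 := by
      rw [norm_inv]
      have h4 := hz2 (φ k)
      have h5 : (0 : ℝ) ≤ (φ k : ℝ) := Nat.cast_nonneg _
      exact inv_le_one_of_one_le₀ (by linarith)
    have h6 : ‖(z (φ k))⁻¹ ^ d ^ n‖ ≤ ‖(z (φ k))⁻¹‖ := by
      rw [norm_pow]
      exact pow_le_of_le_one (norm_nonneg _) h3 (pow_pos (by omega) n).ne'
    exact mul_le_mul ((hz1 (φ k)).trans (le_abs_self M)) h6 (norm_nonneg _) (abs_nonneg _)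
  have h7 := tendsto_nhds_unique hlim2 hlim3
  have h8 : ((1, 0) : ℂ × ℂ) ≠ 0 := fun h => one_ne_zero (congrArg Prod.fst h)
  refine hU s₀ (hK hs₀) ?_
  have h9 : (∞ : OnePoint ℂ) = pr (1, 0) := (SP.pr_zero rfl).symm
  rw [h9, (SP d x hd hx).2.1 _ h8 n, ← pr_pair s₀,
    (SP d x hd hx).2.2.1 _ _ (hx.iter_ne n h8) (pair_ne s₀)]
  unfold cr
  simp only [mul_one]
  linear_combination h7

/-- the inverse branches -/
theorem branches {d : ℕ} {x : CV d} (hd : 2 ≤ d) (hx : ND x) (n : ℕ) {y u : ℂ} {δ : ℝ}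
    (hδ : 0 < δ) (hinf : ∀ s ∈ ball y δ, (sp x)^[n] ∞ ≠ (s : OnePoint ℂ))
    (hcr : ∀ p : ℂ × ℂ, p ≠ 0 → wr x p = 0 → ∀ m ≤ n, ∀ s ∈ ball y δ,
      (sp x)^[m] (pr p) ≠ (s : OnePoint ℂ))
    (hu : (sp x)^[n] (u : OnePoint ℂ) = (y : OnePoint ℂ)) :
    ∃ h : ℂ → ℂ, DifferentiableOn ℂ h (ball y δ) ∧ h y = u ∧
      ∀ s ∈ ball y δ, (sp x)^[n] (h s : OnePoint ℂ) = (s : OnePoint ℂ) := by
  have hd1 : 1 ≤ d := by omega
  have h1 := first_diff x n
  have hfst : ContDiff ℂ 1 (fun z : ℂ => ((hF x)^[n] ((z, 1) : ℂ × ℂ)).1) := h1.fst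
  have hsnd : ContDiff ℂ 1 (fun z : ℂ => ((hF x)^[n] ((z, 1) : ℂ × ℂ)).2) := h1.snd
  have key := root_holds ℂ (ball y δ) (fun s z => ((hF x)^[n] (z, 1)).1 -
    s * ((hF x)^[n] (z, 1)).2) isOpen_ball (convex_ball y δ) ?_ ?_ ?_ y (mem_ball_self hδ) u ?_
  · obtain ⟨Z, h1, h2, h3, -⟩ := key
    refine ⟨Z, h1, h2, fun s hs => ?_⟩
    rw [iter_eq_coe hd1 hx]
    exact sub_eq_zero.1 (h3 s hs)
  · exact ((hfst.comp contDiff_snd).sub
      (contDiff_fst.mul (hsnd.comp contDiff_snd))).contDiffOn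
  · intro K hK hKc M
    exact proper hd1 hx n hK hKc hinf M
  · intro s hs z hz h0
    have hz' : ((hF x)^[n] (z, 1)).1 = s * ((hF x)^[n] (z, 1)).2 := sub_eq_zero.1 hz
    have hda : DifferentiableAt ℂ (fun z : ℂ => ((hF x)^[n] ((z, 1) : ℂ × ℂ)).1) z :=
      (hfst.differentiable (by norm_num)) z
    have hdb : DifferentiableAt ℂ (fun z : ℂ => ((hF x)^[n] ((z, 1) : ℂ × ℂ)).2) z :=
      (hsnd.differentiable (by norm_num)) z
    have h2 : HasDerivAt (fun z : ℂ => ((hF x)^[n] ((z, 1) : ℂ × ℂ)).1 -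
        s * ((hF x)^[n] ((z, 1) : ℂ × ℂ)).2)
        (deriv (fun z : ℂ => ((hF x)^[n] ((z, 1) : ℂ × ℂ)).1) z -
          s * deriv (fun z : ℂ => ((hF x)^[n] ((z, 1) : ℂ × ℂ)).2) z) z :=
      hda.hasDerivAt.sub (hdb.hasDerivAt.const_mul s)
    rw [h2.deriv, sub_eq_zero] at h0
    obtain ⟨m, hm, hw⟩ := CHAIN WR d x n z s hd hz' h0
    refine hcr _ (hx.iter_ne m (pair_ne z)) hw (n - m) (Nat.sub_le _ _) s hs ?_
    rw [← iter_coe hd1 hx, ← Function.iterate_add_apply, Nat.sub_add_cancel hm.le,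
      iter_eq_coe hd1 hx]
    exact hz'
  · show ((hF x)^[n] (u, 1)).1 - y * ((hF x)^[n] (u, 1)).2 = 0
    rw [sub_eq_zero]
    exact (iter_eq_coe hd1 hx n u y).1 hu

/-- **The set of the points which are not attracted is a null set**, normalised form. -/
theorem null_inf {d : ℕ} {x : CV d} {V : Set (OnePoint ℂ)} (D : Dat x V)
    (hK : ∃ K : ℕ, {w : OnePoint ℂ | ∀ j, K ≤ j → (sp x)^[j] w ∈ V} ∈ 𝓝 ∞) :
    volume {z : ℂ | (z : OnePoint ℂ) ∉ Gs (sp x) V} = 0 := by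
  have hd1 : 1 ≤ d := by have := D.hd; omega
  set f : OnePoint ℂ → OnePoint ℂ := sp x with hf
  have hfc : Continuous f := SP.sp_cont D.nd
  set G : Set (OnePoint ℂ) := Gs f V with hG
  set N : Set ℂ := {z : ℂ | (z : OnePoint ℂ) ∉ G} with hN
  by_cases hNe : N = ∅
  · rw [hNe]; exact measure_empty
  obtain ⟨y₀, hy₀⟩ := nonempty_iff_ne_empty.2 hNe
  have hwr : wr x (y₀, 1) ≠ 0 := by
    intro h
    have := D.crit _ (pair_ne y₀) h
    rw [pr_pair] at this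
    exact hy₀ this
  have hfin := crit_finite D.hd hwr
  set Cr : Set (OnePoint ℂ) := {w | ∃ p : ℂ × ℂ, p ≠ 0 ∧ wr x p = 0 ∧ w = pr p} with hCr
  obtain ⟨K, hK⟩ := hK
  -- a neighbourhood of infinity
  obtain ⟨O, hO, hOo, hOi⟩ := mem_nhds_iff.1 hK
  obtain ⟨-, hOc⟩ := (OnePoint.isOpen_iff_of_mem hOi).1 hOo
  obtain ⟨B, hB0, hB⟩ : ∃ B : ℝ, 0 < B ∧ ∀ z : ℂ, (z : OnePoint ℂ) ∉ O → ‖z‖ < B := by
    obtain ⟨B, hB⟩ := hOc.isBounded.subset_ball_lt 0 0
    refine ⟨B, hB.1, fun z hz => ?_⟩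
    have := hB.2 (show z ∈ ((fun z : ℂ => (z : OnePoint ℂ)) ⁻¹' O)ᶜ from hz)
    rwa [mem_ball_zero_iff] at this
  set Di : Set (OnePoint ℂ) := ((fun z : ℂ => (z : OnePoint ℂ)) '' ball (0 : ℂ) B)ᶜ with hDi
  have hDic : IsClosed Di :=
    ((OnePoint.isOpenEmbedding_coe (X := ℂ)).isOpenMap _ isOpen_ball).isClosed_compl
  have hDiO : Di ⊆ O := by
    intro w hw
    induction w using OnePoint.rec with
    | infty => exact hOi
    | coe z =>
      by_contra h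
      exact hw ⟨z, by rw [mem_ball_zero_iff]; exact hB z h, rfl⟩
  -- a uniform time
  obtain ⟨K', hK'⟩ : ∃ K' : ℕ, ∀ w ∈ Di ∪ Cr, ∀ j, K' ≤ j → f^[j] w ∈ V := by
    have h1 : ∀ᶠ K' : ℕ in atTop, ∀ w ∈ Cr, ∀ j, K' ≤ j → f^[j] w ∈ V := by
      refine (Filter.eventually_all_finite hfin).2 ?_
      rintro w ⟨p, hp, hw, rfl⟩
      have h2 : ∀ᶠ n in atTop, f^[n] (pr p) ∈ V := D.crit p hp hw
      obtain ⟨a, ha⟩ := eventually_atTop.1 h2
      exact eventually_atTop.2 ⟨a, fun b hb j hj => ha j (hb.trans hj)⟩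
    obtain ⟨a, ha⟩ := eventually_atTop.1 h1
    refine ⟨max a K, ?_⟩
    rintro w (hw | hw) j hj
    · exact hO (hDiO hw) j ((le_max_right _ _).trans hj)
    · exact ha a le_rfl w hw j ((le_max_left _ _).trans hj)
  -- the safe set
  set C : Set (OnePoint ℂ) := V ∪ ⋃ j ∈ Finset.range K', f^[j] '' (Di ∪ Cr) with hC
  have hCc : IsClosed C := by
    refine D.cl.union ?_
    refine isClosed_biUnion_finset fun j _ => ?_
    exact ((hDic.union hfin.isClosed).isCompact.image (hfc.iterate j)).isClosed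
  have hCG : C ⊆ G := by
    rintro w (hw | hw)
    · exact D.sub hw
    · simp only [mem_iUnion] at hw
      obtain ⟨j, -, w', hw', rfl⟩ := hw
      rw [hG, mem_Gs_iter]
      exact eventually_atTop.2 ⟨K', fun j hj => hK' w' hw' j hj⟩
  have hCall : ∀ w ∈ Di ∪ Cr, ∀ j, f^[j] w ∈ C := by
    intro w hw j
    by_cases hj : j < K'
    · right
      simp only [mem_iUnion]
      exact ⟨j, Finset.mem_range.2 hj, w, hw, rfl⟩
    · left
      exact hK' w hw j (not_lt.1 hj)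
  have hinfDi : (∞ : OnePoint ℂ) ∈ Di := by
    rintro ⟨z, -, hz⟩
    exact OnePoint.coe_ne_infty z hz
  have hinfG : (∞ : OnePoint ℂ) ∈ G := by
    have := hCG (hCall ∞ (Or.inl hinfDi) 0)
    simpa using this
  have hNc : IsCompact N := ((OnePoint.isOpen_iff_of_mem hinfG).1 D.op).2
  have hdisj : Disjoint N ((fun z : ℂ => (z : OnePoint ℂ)) ⁻¹' C) :=
    Set.disjoint_left.mpr fun z hz hz' => hz (hCG hz')
  obtain ⟨δ, hδ0, hδ⟩ : ∃ δ : ℝ, 0 < δ ∧ ∀ y ∈ N, ∀ s ∈ ball y δ, (s : OnePoint ℂ) ∉ C := by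
    obtain ⟨r, hr, h⟩ := Metric.exists_pos_forall_lt_edist hNc
      (hCc.preimage OnePoint.continuous_coe) hdisj
    refine ⟨r, by exact_mod_cast hr, fun y hy s hs hsC => ?_⟩
    have h3 := h y hy s hsC
    rw [edist_nndist, ENNReal.coe_lt_coe] at h3
    rw [mem_ball, dist_comm, dist_nndist] at hs
    exact lt_irrefl _ ((by exact_mod_cast h3 : (r : ℝ) < nndist y s).trans hs)
  have hNB : ∀ y ∈ N, ‖y‖ < B := by
    intro y hy
    by_contra h
    refine hy (hCG ?_)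
    have h1 : (y : OnePoint ℂ) ∈ Di := by
      rintro ⟨z, hz, hzy⟩
      rw [mem_ball_zero_iff] at hz
      have : z = y := OnePoint.coe_injective hzy
      rw [this] at hz
      exact h hz
    have := hCall _ (Or.inl h1) 0
    simpa using this
  have hNiter : ∀ (n : ℕ) (y : ℂ), y ∈ N → ((hF x)^[n] (y, 1)).2 ≠ 0 := by
    intro n y hy h0
    have h1 : f^[n] (y : OnePoint ℂ) = ∞ := by
      rw [hf, iter_coe hd1 D.nd, SP.pr_zero h0]
    refine hy ?_
    have h2 := hinfG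
    rw [← h1, hG, mem_Gs_iter] at h2
    exact h2
  have hval : ∀ (n : ℕ) (z : ℂ), ((hF x)^[n] (z, 1)).2 ≠ 0 →
      f^[n] (z : OnePoint ℂ) = (rt x n z : OnePoint ℂ) := by
    intro n z hz
    rw [hf, iter_coe hd1 D.nd, SP.pr_ne hz]
    rfl
  have hev : ∀ (n : ℕ) (y : ℂ), y ∈ N → ∀ᶠ z : ℂ in 𝓝 y, ((hF x)^[n] (z, 1)).2 ≠ 0 := by
    intro n y hy
    have hc : Continuous (fun z : ℂ => ((hF x)^[n] ((z, 1) : ℂ × ℂ)).2) := (first_diff x n).snd.continuous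
    exact hc.continuousAt.eventually_ne (hNiter n y hy)
  have hmap : ∀ (n : ℕ) (y : ℂ), y ∈ N → rt x n y ∈ N := by
    intro n y hy h
    refine hy ?_
    rw [← hval n y (hNiter n y hy), hG, mem_Gs_iter] at h
    exact h
  have E : Exp f (rt x) N δ B := by
    refine ⟨hNc, hδ0, hB0, fun y hy => (hNB y hy).le, hmap, ?_, ?_, ?_, ?_, ?_⟩
    · intro n y hy
      filter_upwards [hev n y hy] with z hz using hval n z hz
    · intro n y hy
      have h1 : DifferentiableOn ℂ (rt x n) {z : ℂ | ((hF x)^[n] (z, 1)).2 ≠ 0} := by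
        have h2 := (first_diff x n).differentiable (by norm_num)
        intro z hz
        exact ((h2.fst z).div (h2.snd z) hz).differentiableWithinAt
      exact h1.analyticAt (hev n y hy)
    · intro n u hu
      have hyN := hmap n u hu
      have b1 : ∀ s ∈ ball (rt x n u) δ, (sp x)^[n] ∞ ≠ (s : OnePoint ℂ) := by
        intro s hs hcon
        refine hδ _ hyN s hs ?_
        rw [← hcon]
        exact hCall _ (Or.inl hinfDi) n
      have b2 : ∀ p : ℂ × ℂ, p ≠ 0 → wr x p = 0 → ∀ m ≤ n, ∀ s ∈ ball (rt x n u) δ,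
          (sp x)^[m] (pr p) ≠ (s : OnePoint ℂ) := by
        intro p hp hw m hm s hs hcon
        refine hδ _ hyN s hs ?_
        rw [← hcon]
        exact hCall _ (Or.inr ⟨p, hp, hw, rfl⟩) m
      obtain ⟨h, h1, h2, h3⟩ := branches D.hd D.nd n (y := rt x n u) (u := u) hδ0 b1 b2
        (hval n u (hNiter n u hu))
      refine ⟨h, h1, h2, fun s hs => ⟨h3 s hs, ?_⟩⟩
      by_contra hlt
      rw [not_le] at hlt
      refine hδ _ hyN s hs ?_
      rw [← h3 s hs]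
      apply hCall
      left
      rintro ⟨z, hz, hzy⟩
      rw [mem_ball_zero_iff] at hz
      have : z = h s := OnePoint.coe_injective hzy
      rw [this] at hz
      exact lt_asymm hz hlt
    · intro n z y hy hzy hz
      refine hy ?_
      rw [← hzy, hG, mem_Gs_iter]
      exact hz
    · intro w hw
      have hwG : (w : OnePoint ℂ) ∈ G := not_not.1 hw
      have h1 : ∀ᶠ n in atTop, f^[n] (w : OnePoint ℂ) ∈ V := hwG
      filter_upwards [h1] with n hn y hy s hs hcon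
      rw [hcon] at hn
      exact hδ y hy s hs (Or.inl hn)
  exact E.null

end Pool.Agent.Helper32.HN
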