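import Mathlib
import Pool.Agent.Helper32.HN.Inf
import Pool.Agent.H790R3.RB.TMOB
import Pool.Agent.Helper113.Gorin.Schottky

/-!
# Montel's theorem for the iterates of a rational map
-/

set_option autoImplicit false

open Topology Filter Metric Set
open scoped OnePoint Uniformity

namespace Pool.Agent.Helper32.HN

open Pool.Agent.H790R3.RB

/-- A Möbius transformation with three prescribed values. -/
theorem exists_mob {p₁ p₂ p₃ : ℂ × ℂ} (h12 : cr p₁ p₂ ≠ 0) (h31 : cr p₃ p₁ ≠ 0)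
    (h32 : cr p₃ p₂ ≠ 0) : ∃ (a b c e : ℂ) (h : OnePoint ℂ ≃ₜ OnePoint ℂ),
      (∀ p : ℂ × ℂ, p ≠ 0 → h (pr p) = pr (a * p.1 + b * p.2, c * p.1 + e * p.2)) ∧
      h (pr p₁) = ∞ ∧ h (pr p₂) = ((-1 : ℂ) : OnePoint ℂ) ∧ h (pr p₃) = ((1 : ℂ) : OnePoint ℂ) := by
  set α : ℂ := cr p₃ p₁ / cr p₃ p₂ with hα
  have hα0 : α ≠ 0 := div_ne_zero h31 h32
  have hdet : (2 * α * p₂.2 - p₁.2) * (-p₁.1) - (p₁.1 - 2 * α * p₂.1) * p₁.2 ≠ 0 := by
    have e1 : (2 * α * p₂.2 - p₁.2) * (-p₁.1) - (p₁.1 - 2 * α * p₂.1) * p₁.2 =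
        - (2 * α * cr p₁ p₂) := by unfold cr; ring
    rw [e1]
    exact neg_ne_zero.2 (mul_ne_zero (mul_ne_zero two_ne_zero hα0) h12)
  have hp : ∀ {p q : ℂ × ℂ}, cr p q ≠ 0 → p ≠ 0 := by
    intro p q h h0
    apply h
    rw [h0]
    simp [cr]
  obtain ⟨h, hh, -⟩ := MOB SP _ _ _ _ hdet
  refine ⟨_, _, _, _, h, hh, ?_, ?_, ?_⟩
  · rw [hh _ (hp h12)]
    apply SP.pr_zero
    simp only
    ring
  · have h21 : cr p₂ p₁ ≠ 0 := by rw [cr_comm]; exact neg_ne_zero.2 h12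
    rw [hh _ (hp h21)]
    have e2 : p₁.2 * p₂.1 + -p₁.1 * p₂.2 = cr p₂ p₁ := by unfold cr; ring
    rw [SP.pr_ne (by simp only; rw [e2]; exact h21)]
    congr 1
    simp only
    rw [e2, div_eq_iff h21]
    unfold cr
    ring
  · rw [hh _ (hp h31)]
    have e2 : p₁.2 * p₃.1 + -p₁.1 * p₃.2 = cr p₃ p₁ := by unfold cr; ring
    rw [SP.pr_ne (by simp only; rw [e2]; exact h31)]
    congr 1
    simp only
    rw [e2, div_eq_iff h31, one_mul]
    have e3 : (2 * α * p₂.2 - p₁.2) * p₃.1 + (p₁.1 - 2 * α * p₂.1) * p₃.2 =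
        2 * (α * cr p₃ p₂) - cr p₃ p₁ := by unfold cr; ring
    rw [e3, hα, div_mul_cancel₀ _ h32]
    ring

/-- **Montel.** The iterates are equicontinuous on an invariant open set which omits three points,
if the orbits are relatively compact in it. -/
theorem equi {d : ℕ} {x : CV d} (hd : 1 ≤ d) (hx : ND x) {G : Set (OnePoint ℂ)} (hG : IsOpen G)
    (hmap : ∀ w ∈ G, sp x w ∈ G)
    (horb : ∀ w ∈ G, ∃ C : Set (OnePoint ℂ), IsClosed C ∧ C ⊆ G ∧ ∀ n, (sp x)^[n] w ∈ C)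
    {w₁ w₂ w₃ : OnePoint ℂ} (h1 : w₁ ∉ G) (h2 : w₂ ∉ G) (h3 : w₃ ∉ G) (h12 : w₁ ≠ w₂)
    (h13 : w₁ ≠ w₃) (h23 : w₂ ≠ w₃) {ζ : ℂ} (hζ : (ζ : OnePoint ℂ) ∈ G) :
    ∃ U ∈ 𝓝 (ζ : OnePoint ℂ), ∀ y ∈ U, ∀ W ∈ 𝓝ˢ (Set.diagonal (OnePoint ℂ)),
      ∀ᶠ z in 𝓝 y, ∀ n : ℕ, ((sp x)^[n] y, (sp x)^[n] z) ∈ W := by
  obtain ⟨e1, n1⟩ := SP.pr_hc w₁
  obtain ⟨e2, n2⟩ := SP.pr_hc w₂
  obtain ⟨e3, n3⟩ := SP.pr_hc w₃
  have c12 : cr (hc w₁) (hc w₂) ≠ 0 := by
    intro h
    apply h12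
    rw [← e1, ← e2]
    exact (SP.pr_eq_iff n1 n2).2 h
  have c31 : cr (hc w₃) (hc w₁) ≠ 0 := by
    intro h
    apply h13
    rw [← e1, ← e3]
    exact ((SP.pr_eq_iff n3 n1).2 h).symm
  have c32 : cr (hc w₃) (hc w₂) ≠ 0 := by
    intro h
    apply h23
    rw [← e2, ← e3]
    exact ((SP.pr_eq_iff n3 n2).2 h).symm
  obtain ⟨a, b, c, e, h, hh, k1, k2, k3⟩ := exists_mob c12 c31 c32
  rw [e1] at k1
  rw [e2] at k2
  rw [e3] at k3
  have hiter : ∀ (n : ℕ) (w : OnePoint ℂ), w ∈ G → (sp x)^[n] w ∈ G := by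
    intro n
    induction n with
    | zero => exact fun w hw => hw
    | succ n ih => exact fun w hw => by rw [Function.iterate_succ_apply]; exact ih _ (hmap w hw)
  -- the iterates in the target coordinate
  set φ : ℕ → ℂ → ℂ := fun n z => (a * ((hF x)^[n] (z, 1)).1 + b * ((hF x)^[n] (z, 1)).2) /
    (c * ((hF x)^[n] (z, 1)).1 + e * ((hF x)^[n] (z, 1)).2) with hφ
  have hval0 : ∀ (n : ℕ) (z : ℂ), h ((sp x)^[n] (z : OnePoint ℂ)) =
      pr (a * ((hF x)^[n] (z, 1)).1 + b * ((hF x)^[n] (z, 1)).2,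
        c * ((hF x)^[n] (z, 1)).1 + e * ((hF x)^[n] (z, 1)).2) := by
    intro n z
    rw [iter_coe hd hx, hh _ (hx.iter_ne n (pair_ne z))]
  have hden : ∀ (n : ℕ) (z : ℂ), (z : OnePoint ℂ) ∈ G →
      c * ((hF x)^[n] (z, 1)).1 + e * ((hF x)^[n] (z, 1)).2 ≠ 0 := by
    intro n z hz h0
    have h4 := hval0 n z
    rw [SP.pr_zero h0, ← k1] at h4
    have h5 := hiter n _ hz
    rw [h.injective h4] at h5
    exact h1 h5
  have hval : ∀ (n : ℕ) (z : ℂ), (z : OnePoint ℂ) ∈ G →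
      h ((sp x)^[n] (z : OnePoint ℂ)) = (φ n z : OnePoint ℂ) := by
    intro n z hz
    rw [hval0, SP.pr_ne (hden n z hz)]
  have hopen : IsOpen ((fun z : ℂ => (z : OnePoint ℂ)) ⁻¹' G) := hG.preimage OnePoint.continuous_coe
  obtain ⟨r, hr, hrG⟩ := Metric.isOpen_iff.1 hopen ζ hζ
  have hφd : ∀ n, DifferentiableOn ℂ (φ n) (ball ζ r) := by
    intro n z hz
    have h4 := (first_diff x n).differentiable (by norm_num)
    exact ((((h4.fst z).const_mul a).add ((h4.snd z).const_mul b)).div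
      (((h4.fst z).const_mul c).add ((h4.snd z).const_mul e))
      (hden n z (hrG hz))).differentiableWithinAt
  have hφ1 : ∀ n, ∀ z ∈ ball ζ r, φ n z ≠ 1 := by
    intro n z hz h0
    have h4 := hval n z (hrG hz)
    rw [h0, ← k3] at h4
    have h5 := hiter n _ (hrG hz)
    rw [h.injective h4] at h5
    exact h3 h5
  have hφ2 : ∀ n, ∀ z ∈ ball ζ r, φ n z ≠ -1 := by
    intro n z hz h0
    have h4 := hval n z (hrG hz)
    rw [h0, ← k2] at h4
    have h5 := hiter n _ (hrG hz)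
    rw [h.injective h4] at h5
    exact h2 h5
  -- the orbit of the centre is bounded
  obtain ⟨M, hM⟩ : ∃ M : ℝ, ∀ n, ‖φ n ζ‖ ≤ M := by
    obtain ⟨C, hC, hCG, hCo⟩ := horb _ hζ
    have h4 : IsOpen (h '' C)ᶜ := (h.isClosedMap _ hC).isOpen_compl
    have h5 : (∞ : OnePoint ℂ) ∈ (h '' C)ᶜ := by
      rintro ⟨w, hw, hw'⟩
      rw [← k1] at hw'
      rw [h.injective hw'] at hw
      exact h1 (hCG hw)
    obtain ⟨-, h6⟩ := (OnePoint.isOpen_iff_of_mem h5).1 h4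
    obtain ⟨M, hM⟩ := h6.isBounded.exists_norm_le
    refine ⟨M, fun n => hM _ ?_⟩
    intro h7
    exact h7 ⟨_, hCo n, hval n ζ hζ⟩
  set M' : ℝ := Real.exp (Real.pi * Real.exp (Real.pi * (M + 386))) with hM'
  have hM'0 : 0 < M' := Real.exp_pos _
  have hbound : ∀ n, ∀ z ∈ ball ζ (r / 2), ‖φ n z‖ ≤ M' := by
    intro n z hz
    have hmaps : ∀ t ∈ ball (0 : ℂ) 1, ζ + r * t ∈ ball ζ r := by
      intro t ht
      rw [mem_ball_zero_iff] at ht
      rw [mem_ball, dist_eq_norm, add_sub_cancel_left, norm_mul, Complex.norm_real,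
        Real.norm_of_nonneg hr.le]
      nlinarith
    have h4 := H113G.schottky_all (fun t => φ n (ζ + r * t)) M
      ((hφd n).comp (by fun_prop) hmaps)
      (fun t ht => hφ1 n _ (hmaps t ht)) (fun t ht => hφ2 n _ (hmaps t ht))
      (by simpa using hM n) ((z - ζ) / r) (by
        rw [mem_ball, dist_eq_norm] at hz
        rw [mem_ball_zero_iff, norm_div, Complex.norm_real, Real.norm_of_nonneg hr.le,
          div_lt_iff₀ hr]
        linarith)
    have h5 : ζ + r * ((z - ζ) / r) = z := by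
      have : (r : ℂ) ≠ 0 := by exact_mod_cast hr.ne'
      field_simp
      ring
    rw [h5] at h4
    exact h4
  have hsub : ball ζ (r / 2) ⊆ ball ζ r := ball_subset_ball (by linarith)
  -- the metric of the sphere
  have es : OnePoint ℂ ≃ₜ Metric.sphere (0 : EuclideanSpace ℝ (Fin 3)) 1 :=
    onePointEquivSphereOfFinrankEq (by simp [Complex.finrank_real_complex])
  have : TopologicalSpace.MetrizableSpace (OnePoint ℂ) := es.isClosedEmbedding.metrizableSpace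
  let _ : MetricSpace (OnePoint ℂ) := TopologicalSpace.metrizableSpaceMetric (OnePoint ℂ)
  have hunif : UniformContinuousOn (fun z : ℂ => h.symm (z : OnePoint ℂ)) (closedBall 0 M') :=
    (isCompact_closedBall _ _).uniformContinuousOn_of_continuous
      (h.symm.continuous.comp OnePoint.continuous_coe).continuousOn
  refine ⟨(fun z : ℂ => (z : OnePoint ℂ)) '' ball ζ (r / 2), ?_, ?_⟩
  · exact (OnePoint.isOpenEmbedding_coe (X := ℂ)).isOpenMap.image_mem_nhds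
      (ball_mem_nhds ζ (by linarith))
  · rintro _ ⟨y, hy, rfl⟩ W hW
    rw [nhdsSet_diagonal_eq_uniformity] at hW
    obtain ⟨ε, hε, hWε⟩ := Metric.mem_uniformity_dist.1 hW
    obtain ⟨δ, hδ, hδε⟩ := Metric.uniformContinuousOn_iff.1 hunif ε hε
    obtain ⟨ρ, hρ, hρs⟩ := Metric.isOpen_iff.1 isOpen_ball y hy
    have hlip : ∀ n, ∀ z ∈ ball y ρ, dist (φ n z) (φ n y) ≤ (2 * M') / ρ * dist z y := by
      intro n z hz
      refine Complex.dist_le_div_mul_dist_of_mapsTo_ball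
        ((hφd n).mono (hρs.trans hsub)) (fun w hw => ?_) hz
      rw [mem_closedBall, dist_eq_norm]
      have a1 := hbound n w (hρs hw)
      have a2 := hbound n y hy
      have a3 := norm_sub_le (φ n w) (φ n y)
      linarith
    rw [OnePoint.nhds_coe_eq, eventually_map]
    filter_upwards [ball_mem_nhds y (show 0 < min ρ (δ * ρ / (2 * M')) by positivity)]
      with z hz n
    rw [mem_ball, lt_min_iff] at hz
    have hzρ : z ∈ ball y ρ := hz.1
    have a1 := hlip n z hzρ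
    have a2 : dist (φ n z) (φ n y) < δ := by
      refine a1.trans_lt ?_
      calc 2 * M' / ρ * dist z y < 2 * M' / ρ * (δ * ρ / (2 * M')) := by
            apply mul_lt_mul_of_pos_left hz.2 (by positivity)
        _ = δ := by field_simp
    have a3 := hδε (φ n y) (by rw [mem_closedBall_zero_iff]; exact hbound n y hy) (φ n z)
      (by rw [mem_closedBall_zero_iff]; exact hbound n z (hρs hzρ)) (by rw [dist_comm]; exact a2)
    apply hWε
    have b1 : h.symm (φ n y : OnePoint ℂ) = (sp x)^[n] (y : OnePoint ℂ) := by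
      rw [← hval n y (hrG (hsub hy)), h.symm_apply_apply]
    have b2 : h.symm (φ n z : OnePoint ℂ) = (sp x)^[n] (z : OnePoint ℂ) := by
      rw [← hval n z (hrG (hsub (hρs hzρ))), h.symm_apply_apply]
    rw [b1, b2] at a3
    exact a3

end Pool.Agent.Helper32.HN
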