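import Mathlib
import Pool.Agent.Helper32.HN.Inf
import Pool.Agent.Helper32.HN.Crit
import Pool.Agent.H790R3.RB.TMOB
import Pool.Agent.H790R3.RB.TCJ

/-!
# Hyperbolic rational maps: the set of the points which are not attracted is a null set

The general case follows from the normalised one by Baire's theorem and a Möbius transformation.
-/

set_option autoImplicit false

open Topology Filter Metric Set MeasureTheory
open scoped OnePoint

namespace Pool.Agent.Helper32.HN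

open Pool.Agent.H790R3.RB

/-- Conjugation by a Möbius transformation. -/
theorem conj {d : ℕ} {x : CV d} (hx : ND x) (a b c e : ℂ) (hdet : a * e - b * c ≠ 0) :
    ∃ (y : CV d) (h : OnePoint ℂ ≃ₜ OnePoint ℂ), ND y ∧ (∀ w, sp y (h w) = h (sp x w)) ∧
      (∀ p : ℂ × ℂ, p ≠ 0 → h (pr p) = pr (a * p.1 + b * p.2, c * p.1 + e * p.2)) ∧
      ∀ A : Set (OnePoint ℂ), volume {z : ℂ | h (z : OnePoint ℂ) ∈ A} = 0 ∨
        volume {z : ℂ | (z : OnePoint ℂ) ∈ A} ≠ 0 := by
  obtain ⟨cj, -, -, -, -, hcj⟩ := CJ d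
  set y : CV d := cj ((a, b), (c, e)) x with hy
  have hF' : ∀ p : ℂ × ℂ, hF y p =
      (a * (hF x (e * p.1 - b * p.2, a * p.2 - c * p.1)).1 +
        b * (hF x (e * p.1 - b * p.2, a * p.2 - c * p.1)).2,
       c * (hF x (e * p.1 - b * p.2, a * p.2 - c * p.1)).1 +
        e * (hF x (e * p.1 - b * p.2, a * p.2 - c * p.1)).2) := fun p => hcj _ x p
  -- injectivity of the linear maps
  have inj1 : ∀ (a b c e : ℂ), a * e - b * c ≠ 0 → ∀ p : ℂ × ℂ,
      ((a * p.1 + b * p.2, c * p.1 + e * p.2) : ℂ × ℂ) = 0 → p = 0 := by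
    intro a b c e hdet p hp
    have h1 : a * p.1 + b * p.2 = 0 := congrArg Prod.fst hp
    have h2 : c * p.1 + e * p.2 = 0 := congrArg Prod.snd hp
    have h3 : (a * e - b * c) * p.1 = 0 := by linear_combination e * h1 - b * h2
    have h4 : (a * e - b * c) * p.2 = 0 := by linear_combination a * h2 - c * h1
    ext
    · exact (mul_eq_zero.1 h3).resolve_left hdet
    · exact (mul_eq_zero.1 h4).resolve_left hdet
  have hy0 : ND y := by
    intro p hp
    rw [hF'] at hp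
    have h1 := hx _ (inj1 a b c e hdet _ hp)
    have hdet' : e * a - (-b) * (-c) ≠ 0 := by
      intro h; apply hdet; linear_combination h
    refine inj1 e (-b) (-c) a hdet' p ?_
    rw [← h1]
    ext
    · simp only; ring
    · simp only; ring
  obtain ⟨h, hh, -⟩ := MOB SP a b c e hdet
  have hdet' : e * a - (-b) * (-c) ≠ 0 := by
    intro h; apply hdet; linear_combination h
  obtain ⟨h', hh', hvol⟩ := MOB SP e (-b) (-c) a hdet'
  have hinv : ∀ w, h' (h w) = w := by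
    intro w
    obtain ⟨hw1, hw2⟩ := SP.pr_hc w
    set p := hc w with hp
    rw [← hw1, hh p hw2]
    have hne : ((a * p.1 + b * p.2, c * p.1 + e * p.2) : ℂ × ℂ) ≠ 0 := fun h0 =>
      hw2 (inj1 a b c e hdet p h0)
    rw [hh' _ hne]
    have e1 : ((e * (a * p.1 + b * p.2, c * p.1 + e * p.2).1 +
        -b * (a * p.1 + b * p.2, c * p.1 + e * p.2).2,
        -c * (a * p.1 + b * p.2, c * p.1 + e * p.2).1 +
        a * (a * p.1 + b * p.2, c * p.1 + e * p.2).2) : ℂ × ℂ) = (a * e - b * c) • p := by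
      ext
      · simp only [Prod.smul_fst, smul_eq_mul]; ring
      · simp only [Prod.smul_snd, smul_eq_mul]; ring
    rw [e1]
    refine (SP.pr_eq_iff ?_ hw2).2 ?_
    · exact smul_ne_zero hdet hw2
    · rw [cr_smul_left, cr_self, mul_zero]
  refine ⟨y, h, hy0, ?_, hh, ?_⟩
  · intro w
    obtain ⟨hw1, hw2⟩ := SP.pr_hc w
    set p := hc w with hp
    have hne : ((a * p.1 + b * p.2, c * p.1 + e * p.2) : ℂ × ℂ) ≠ 0 := fun h0 =>
      hw2 (inj1 a b c e hdet p h0)
    rw [← hw1, hh p hw2, SP.sp_pr hy0 hne, SP.sp_pr hx hw2, hh _ (fun h0 => hw2 (hx _ h0)), hF']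
    have e1 : ((e * (a * p.1 + b * p.2, c * p.1 + e * p.2).1 -
        b * (a * p.1 + b * p.2, c * p.1 + e * p.2).2,
        a * (a * p.1 + b * p.2, c * p.1 + e * p.2).2 -
        c * (a * p.1 + b * p.2, c * p.1 + e * p.2).1) : ℂ × ℂ) = (a * e - b * c) • p := by
      ext
      · simp only [Prod.smul_fst, smul_eq_mul]; ring
      · simp only [Prod.smul_snd, smul_eq_mul]; ring
    rw [e1, hF_smul]
    have hne2 : ((a * (hF x p).1 + b * (hF x p).2, c * (hF x p).1 + e * (hF x p).2) : ℂ × ℂ) ≠ 0 :=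
      fun h0 => hw2 (hx _ (inj1 a b c e hdet _ h0))
    have e2 : ((a * ((a * e - b * c) ^ d • hF x p).1 + b * ((a * e - b * c) ^ d • hF x p).2,
        c * ((a * e - b * c) ^ d • hF x p).1 + e * ((a * e - b * c) ^ d • hF x p).2) : ℂ × ℂ) =
        (a * e - b * c) ^ d • ((a * (hF x p).1 + b * (hF x p).2,
          c * (hF x p).1 + e * (hF x p).2) : ℂ × ℂ) := by
      ext
      · simp only [Prod.smul_fst, Prod.smul_snd, smul_eq_mul]; ring
      · simp only [Prod.smul_fst, Prod.smul_snd, smul_eq_mul]; ring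
    rw [e2]
    refine (SP.pr_eq_iff (smul_ne_zero (pow_ne_zero _ hdet) hne2) hne2).2 ?_
    rw [cr_smul_left, cr_self, mul_zero]
  · intro A
    by_cases h0 : volume {z : ℂ | (z : OnePoint ℂ) ∈ A} = 0
    · left
      have h1 := hvol A h0
      refine measure_mono_null ?_ h1
      intro z hz
      exact ⟨h z, hz, hinv z⟩
    · right; exact h0

/-- Conjugation which maps a given point to infinity. -/
theorem conj_inf {d : ℕ} {x : CV d} (hx : ND x) (w₀ : OnePoint ℂ) :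
    ∃ (y : CV d) (h : OnePoint ℂ ≃ₜ OnePoint ℂ), ND y ∧ (∀ w, sp y (h w) = h (sp x w)) ∧
      h w₀ = ∞ ∧ ∀ A : Set (OnePoint ℂ), volume {z : ℂ | (z : OnePoint ℂ) ∈ A} = 0 →
        volume {z : ℂ | h (z : OnePoint ℂ) ∈ A} = 0 := by
  obtain ⟨hw1, hw2⟩ := SP.pr_hc w₀
  set q := hc w₀ with hq
  have hdet : starRingEnd ℂ q.1 * q.1 - starRingEnd ℂ q.2 * (-q.2) ≠ 0 := by
    have e1 : starRingEnd ℂ q.1 * q.1 - starRingEnd ℂ q.2 * (-q.2) =
        ((‖q.1‖ ^ 2 + ‖q.2‖ ^ 2 : ℝ) : ℂ) := by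
      push_cast
      rw [← Complex.conj_mul', ← Complex.conj_mul']
      ring
    rw [e1]
    intro h
    have h1 : ‖q.1‖ ^ 2 + ‖q.2‖ ^ 2 = 0 := by exact_mod_cast h
    apply hw2
    ext
    · have : ‖q.1‖ ^ 2 = 0 := by nlinarith [sq_nonneg ‖q.1‖, sq_nonneg ‖q.2‖]
      simpa using this
    · have : ‖q.2‖ ^ 2 = 0 := by nlinarith [sq_nonneg ‖q.1‖, sq_nonneg ‖q.2‖]
      simpa using this
  obtain ⟨y, h, h1, h2, h3, h4⟩ := conj hx (starRingEnd ℂ q.1) (starRingEnd ℂ q.2) (-q.2) q.1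
    hdet
  refine ⟨y, h, h1, h2, ?_, ?_⟩
  · rw [← hw1, h3 q hw2]
    apply SP.pr_zero
    simp only
    ring
  · intro A hA
    exact (h4 A).resolve_right (fun h => h hA)

/-- the topological data: a closed set `V` of attracted points which attracts the critical points -/
structure DatT {d : ℕ} (x : CV d) (V : Set (OnePoint ℂ)) : Prop where
  hd : 2 ≤ d
  nd : ND x
  cl : IsClosed V
  op : IsOpen (Gs (sp x) V)
  sub : V ⊆ Gs (sp x) V
  crit : ∀ c : OnePoint ℂ, (¬ ∃ U ∈ 𝓝 c, InjOn (sp x) U) → c ∈ Gs (sp x) V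

theorem DatT.dat {d : ℕ} {x : CV d} {V : Set (OnePoint ℂ)} (D : DatT x V) : Dat x V := by
  refine ⟨D.hd, D.nd, D.cl, D.op, D.sub, fun p hp hw => D.crit _ ?_⟩
  rintro ⟨U, hU, hi⟩
  exact wr_ne_of_inj D.hd D.nd hp hU hi hw

theorem iter_conj {f g : OnePoint ℂ → OnePoint ℂ} {h : OnePoint ℂ ≃ₜ OnePoint ℂ}
    (hfg : ∀ w, g (h w) = h (f w)) (n : ℕ) (w : OnePoint ℂ) : g^[n] (h w) = h (f^[n] w) := by
  induction n generalizing w with
  | zero => rfl
  | succ n ih => rw [Function.iterate_succ_apply, Function.iterate_succ_apply, hfg, ih]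

theorem Gs_conj {f g : OnePoint ℂ → OnePoint ℂ} {h : OnePoint ℂ ≃ₜ OnePoint ℂ}
    (hfg : ∀ w, g (h w) = h (f w)) (V : Set (OnePoint ℂ)) (w : OnePoint ℂ) :
    h w ∈ Gs g (h '' V) ↔ w ∈ Gs f V := by
  unfold Gs
  simp only [mem_ofPred_eq]
  refine eventually_congr (Eventually.of_forall fun n => ?_)
  rw [iter_conj hfg, h.injective.mem_set_image]

theorem DatT.conj {d : ℕ} {x y : CV d} {V : Set (OnePoint ℂ)} (D : DatT x V) (hy : ND y)
    {h : OnePoint ℂ ≃ₜ OnePoint ℂ} (hfg : ∀ w, sp y (h w) = h (sp x w)) :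
    DatT y (h '' V) := by
  have e1 : Gs (sp y) (h '' V) = h '' Gs (sp x) V := by
    ext w
    obtain ⟨w', rfl⟩ := h.surjective w
    rw [Gs_conj hfg, h.injective.mem_set_image]
  refine ⟨D.hd, hy, h.isClosedMap _ D.cl, ?_, ?_, ?_⟩
  · rw [e1]; exact h.isOpenMap _ D.op
  · rw [e1]; exact image_mono D.sub
  · intro c hc
    obtain ⟨c', rfl⟩ := h.surjective c
    rw [Gs_conj hfg]
    refine D.crit _ ?_
    rintro ⟨U, hU, hi⟩
    refine hc ⟨h '' U, h.isOpenMap.image_mem_nhds hU, ?_⟩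
    rintro _ ⟨a, ha, rfl⟩ _ ⟨b, hb, rfl⟩ hab
    rw [hfg, hfg] at hab
    rw [hi ha hb (h.injective hab)]

/-- **The set of the points which are not attracted is a null set.** -/
theorem null_gen {d : ℕ} {x : CV d} {V : Set (OnePoint ℂ)} (D : DatT x V) :
    volume {z : ℂ | (z : OnePoint ℂ) ∉ Gs (sp x) V} = 0 := by
  have hd1 : 1 ≤ d := by have := D.hd; omega
  have hfc : Continuous (sp x) := SP.sp_cont D.nd
  obtain ⟨p, hp, hw⟩ := exists_crit D.hd x
  have hne : (Gs (sp x) V).Nonempty := ⟨pr p, D.dat.crit p hp hw⟩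
  -- Baire
  set E : ℕ → Set (OnePoint ℂ) := fun K => {w | ∀ j, K ≤ j → (sp x)^[j] w ∈ V} with hE
  have hEc : ∀ K, IsClosed (E K) := by
    intro K
    have : E K = ⋂ j, ⋂ (_ : K ≤ j), (sp x)^[j] ⁻¹' V := by
      ext w
      simp [hE]
    rw [this]
    exact isClosed_iInter fun j => isClosed_iInter fun _ => D.cl.preimage (hfc.iterate j)
  have hU : ⋃ K, (E K ∪ (Gs (sp x) V)ᶜ) = univ := by
    rw [eq_univ_iff_forall]
    intro w
    by_cases hwG : w ∈ Gs (sp x) V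
    · obtain ⟨K, hK⟩ := eventually_atTop.1 hwG
      exact mem_iUnion.2 ⟨K, Or.inl fun j hj => hK j hj⟩
    · exact mem_iUnion.2 ⟨0, Or.inr hwG⟩
  have hdense := dense_iUnion_interior_of_closed
    (fun K => (hEc K).union D.op.isClosed_compl) hU
  obtain ⟨w₀, hw₀G, hw₀⟩ := hdense.inter_open_nonempty _ D.op hne
  obtain ⟨K, hK⟩ := mem_iUnion.1 hw₀
  have hnb : E K ∈ 𝓝 w₀ := by
    filter_upwards [isOpen_interior.mem_nhds hK, D.op.mem_nhds hw₀G] with w h1 h2
    rcases interior_subset h1 with h3 | h3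
    · exact h3
    · exact absurd h2 h3
  obtain ⟨y, h, hy, hfg, hinf, hvol⟩ := conj_inf D.nd w₀
  have D' := D.conj hy hfg
  have h1 := null_inf D'.dat ⟨K, by
    have h2 : h '' E K ∈ 𝓝 (∞ : OnePoint ℂ) := by
      rw [← hinf]
      exact h.isOpenMap.image_mem_nhds hnb
    refine mem_of_superset h2 ?_
    rintro _ ⟨w, hw, rfl⟩ j hj
    rw [iter_conj hfg]
    exact ⟨_, hw j hj, rfl⟩⟩
  have h2 := hvol (Gs (sp y) (h '' V))ᶜ h1
  refine measure_mono_null ?_ h2
  intro z hz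
  show h (z : OnePoint ℂ) ∉ Gs (sp y) (h '' V)
  rw [Gs_conj hfg]
  exact hz

end Pool.Agent.Helper32.HN
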