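import Mathlib
import Pool.Agent.H790R3.RB.St2
import Pool.Agent.Helper32.HN.Inf

/-!
# Attracting cycles in the sense of pointwise convergence
-/

set_option autoImplicit false

open Topology Filter Set
open scoped OnePoint

namespace Pool.Agent.Helper32.HN

open Pool.Agent.H790R3.RB

/-- `a` is a fixed point of `f^[P]` whose basin contains a neighbourhood of `a` -/
def AttP (f : OnePoint ℂ → OnePoint ℂ) (P : ℕ) (a : OnePoint ℂ) : Prop :=
  f^[P] a = a ∧ ∃ U ∈ 𝓝 a, ∀ w ∈ U, Tendsto (fun k : ℕ => f^[P * k] w) atTop (𝓝 a)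

/-- the basin of `T` -/
def Gz (f : OnePoint ℂ → OnePoint ℂ) (P : ℕ) (T : Set (OnePoint ℂ)) : Set (OnePoint ℂ) :=
  {w | ∃ a ∈ T, Tendsto (fun k : ℕ => f^[P * k] w) atTop (𝓝 a)}

variable {f : OnePoint ℂ → OnePoint ℂ}

theorem fix_mul {n : ℕ} {z : OnePoint ℂ} (h : f^[n] z = z) (k : ℕ) : f^[n * k] z = z := by
  rw [Function.iterate_mul]
  exact Function.iterate_fixed h k

theorem tendsto_mul {n m : ℕ} (hm : 0 < m) {w z : OnePoint ℂ}
    (h : Tendsto (fun k : ℕ => f^[n * k] w) atTop (𝓝 z)) :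
    Tendsto (fun k : ℕ => f^[n * m * k] w) atTop (𝓝 z) := by
  have h1 : Tendsto (fun k : ℕ => m * k) atTop atTop := tendsto_id.const_mul_atTop' hm
  refine (h.comp h1).congr fun k => ?_
  simp only [Function.comp_apply]
  rw [← mul_assoc]

/-- backward shift of convergence -/
theorem tendsto_back (hf : Continuous f) {n : ℕ} (hn : 0 < n) {w z : OnePoint ℂ} (j : ℕ)
    (h : Tendsto (fun k : ℕ => f^[n * k] (f^[j] w)) atTop (𝓝 z)) :
    Tendsto (fun k : ℕ => f^[n * k] w) atTop (𝓝 (f^[n * j - j] z)) := by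
  have h1 := ((hf.iterate (n * j - j)).tendsto z).comp h
  rw [← tendsto_add_atTop_iff_nat j]
  refine h1.congr fun k => ?_
  simp only [Function.comp_apply]
  rw [← Function.iterate_add_apply, ← Function.iterate_add_apply]
  congr 1
  have h2 : j ≤ n * j := Nat.le_mul_of_pos_left j hn
  have e : n * (k + j) = n * k + n * j := by ring
  omega

theorem AttP.mul {n m : ℕ} (hm : 0 < m) {a : OnePoint ℂ} (h : AttP f n a) : AttP f (n * m) a := by
  obtain ⟨h1, U, hU, h2⟩ := h
  exact ⟨fix_mul h1 m, U, hU, fun w hw => tendsto_mul hm (h2 w hw)⟩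

theorem AttP.iter (hf : Continuous f) {n : ℕ} (hn : 0 < n) {a : OnePoint ℂ} (h : AttP f n a)
    (r : ℕ) : AttP f n (f^[r] a) := by
  obtain ⟨h1, U, hU, h2⟩ := h
  have hr : f^[n * r - r] (f^[r] a) = a := by
    rw [← Function.iterate_add_apply, Nat.sub_add_cancel (Nat.le_mul_of_pos_left r hn)]
    exact fix_mul h1 r
  refine ⟨?_, f^[n * r - r] ⁻¹' U, ?_, fun w hw => ?_⟩
  · rw [← Function.iterate_add_apply, add_comm, Function.iterate_add_apply, h1]
  · refine (hf.iterate _).continuousAt.preimage_mem_nhds ?_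
    rw [hr]; exact hU
  · have h3 := ((hf.iterate r).tendsto a).comp (h2 _ hw)
    rw [← tendsto_add_atTop_iff_nat r]
    refine h3.congr fun k => ?_
    simp only [Function.comp_apply]
    rw [← Function.iterate_add_apply, ← Function.iterate_add_apply]
    congr 1
    have h4 : r ≤ n * r := Nat.le_mul_of_pos_left r hn
    have e : n * (k + r) = n * k + n * r := by ring
    omega

theorem iterate_mem {T : Set (OnePoint ℂ)} (hT : ∀ a ∈ T, f a ∈ T) {a : OnePoint ℂ} (ha : a ∈ T)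
    (r : ℕ) : f^[r] a ∈ T := by
  induction r with
  | zero => exact ha
  | succ r ih => rw [Function.iterate_succ_apply']; exact hT _ ih

/-- one basin is open -/
theorem basin_open (hf : Continuous f) {P : ℕ} {a : OnePoint ℂ} (h : AttP f P a) :
    IsOpen {w | Tendsto (fun k : ℕ => f^[P * k] w) atTop (𝓝 a)} := by
  obtain ⟨-, U, hU, h2⟩ := h
  rw [isOpen_iff_mem_nhds]
  intro w hw
  obtain ⟨k, hk⟩ := ((show Tendsto (fun k : ℕ => f^[P * k] w) atTop (𝓝 a) from hw).eventually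
    (interior_mem_nhds.2 hU)).exists
  have h3 : f^[P * k] ⁻¹' interior U ∈ 𝓝 w :=
    (hf.iterate _).continuousAt.preimage_mem_nhds (isOpen_interior.mem_nhds hk)
  filter_upwards [h3] with w' hw'
  have h4 := h2 _ (interior_subset hw')
  rw [← tendsto_add_atTop_iff_nat k]
  refine h4.congr fun j => ?_
  rw [← Function.iterate_add_apply]
  congr 1
  ring

theorem Gz_open (hf : Continuous f) {P : ℕ} {T : Set (OnePoint ℂ)} (h : ∀ a ∈ T, AttP f P a) :
    IsOpen (Gz f P T) := by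
  have e : Gz f P T = ⋃ a ∈ T, {w | Tendsto (fun k : ℕ => f^[P * k] w) atTop (𝓝 a)} := by
    ext w
    simp [Gz]
  rw [e]
  exact isOpen_biUnion fun a ha => basin_open hf (h a ha)

/-- the finitely many cycles which attract the critical points -/
theorem exists_PT (hf : Continuous f) (H : HypTop f) :
    ∃ (P : ℕ) (T : Set (OnePoint ℂ)), 0 < P ∧ T.Finite ∧ (∀ a ∈ T, f a ∈ T) ∧
      (∀ a ∈ T, AttP f P a) ∧
      ∀ c, (¬ ∃ U ∈ 𝓝 c, InjOn f U) → c ∈ Gz f P T := by
  classical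
  set Cr : Set (OnePoint ℂ) := {c | ¬ ∃ U ∈ 𝓝 c, InjOn f U} with hCr
  have hCrc : IsClosed Cr := by
    rw [← isOpen_compl_iff, isOpen_iff_mem_nhds]
    intro c hc
    have hc' : ∃ U ∈ 𝓝 c, InjOn f U := not_not.1 hc
    obtain ⟨U, hU, hi⟩ := hc'
    filter_upwards [interior_mem_nhds.2 hU] with w hw
    exact not_not.2 ⟨U, mem_of_superset (isOpen_interior.mem_nhds hw) interior_subset, hi⟩
  have H' : ∀ c : OnePoint ℂ, ∃ (z : OnePoint ℂ) (n : ℕ) (O : Set (OnePoint ℂ)), c ∈ Cr →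
      0 < n ∧ AttP f n z ∧ IsOpen O ∧ c ∈ O ∧
        ∀ w ∈ O, ∃ j, Tendsto (fun k : ℕ => f^[n * k] (f^[j] w)) atTop (𝓝 z) := by
    intro c
    by_cases hc : c ∈ Cr
    · obtain ⟨z, n, hn, hz, ⟨U, hU, hUw⟩, hlim⟩ := H c hc
      obtain ⟨k, hk⟩ := (hlim.eventually (interior_mem_nhds.2 hU)).exists
      refine ⟨z, n, f^[n * k] ⁻¹' interior U, fun _ => ⟨hn, ⟨hz, U, hU, hUw⟩,
        isOpen_interior.preimage (hf.iterate _), hk, fun w hw => ⟨n * k, ?_⟩⟩⟩
      exact hUw _ (interior_subset hw)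
    · exact ⟨c, 0, ∅, fun h => absurd h hc⟩
  choose z n O H' using H'
  obtain ⟨s, hcov⟩ := hCrc.isCompact.elim_nhds_subcover' (fun c _ => O c)
    (fun c hc => (H' c hc).2.2.1.mem_nhds (H' c hc).2.2.2.1)
  -- the common period
  set P : ℕ := ∏ c ∈ s, n c with hP
  have hP0 : 0 < P := Finset.prod_pos fun c _ => (H' c c.2).1
  have hdvd : ∀ c ∈ s, ∃ m, 0 < m ∧ P = n c * m := by
    intro c hc
    obtain ⟨m, hm⟩ := Finset.dvd_prod_of_mem (fun c : Cr => n c) hc
    refine ⟨m, ?_, hm⟩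
    rcases Nat.eq_zero_or_pos m with h | h
    · rw [h, mul_zero] at hm
      rw [← hP] at hm
      omega
    · exact h
  set T : Set (OnePoint ℂ) := ⋃ c ∈ s, (fun r => f^[r] (z c)) '' (Finset.range (n c) : Set ℕ)
    with hT
  have hmem : ∀ c ∈ s, ∀ r, f^[r] (z c) ∈ T := by
    intro c hc r
    obtain ⟨hn, ⟨hz, -⟩, -⟩ := H' c c.2
    rw [hT]
    simp only [mem_iUnion]
    refine ⟨c, hc, r % n c, ?_, ?_⟩
    · simpa using Nat.mod_lt r hn
    · show f^[r % n c] (z c) = f^[r] (z c)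
      conv_rhs => rw [← Nat.mod_add_div r (n c), Function.iterate_add_apply, fix_mul hz]
  have hTel : ∀ a ∈ T, ∃ c ∈ s, ∃ r, a = f^[r] (z c) := by
    intro a ha
    rw [hT] at ha
    simp only [mem_iUnion] at ha
    obtain ⟨c, hc, r, -, rfl⟩ := ha
    exact ⟨c, hc, r, rfl⟩
  refine ⟨P, T, hP0, ?_, ?_, ?_, ?_⟩
  · exact s.finite_toSet.biUnion fun c _ => (Finset.finite_toSet _).image _
  · intro a ha
    obtain ⟨c, hc, r, rfl⟩ := hTel a ha
    rw [← Function.iterate_succ_apply' f]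
    exact hmem c hc (r + 1)
  · intro a ha
    obtain ⟨c, hc, r, rfl⟩ := hTel a ha
    obtain ⟨hn, hz, -⟩ := H' c c.2
    obtain ⟨m, hm, hPm⟩ := hdvd c hc
    rw [hPm]
    exact (hz.iter hf hn r).mul hm
  · intro c hc
    have h1 := hcov hc
    simp only [mem_iUnion] at h1
    obtain ⟨c', hc', hcO⟩ := h1
    obtain ⟨hn, hz, -, -, hO⟩ := H' c' c'.2
    obtain ⟨j, hj⟩ := hO c hcO
    obtain ⟨m, hm, hPm⟩ := hdvd c' hc'
    refine ⟨f^[n c' * j - j] (z c'), hmem c' hc' _, ?_⟩
    rw [hPm]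
    exact tendsto_mul hm (tendsto_back hf hn j hj)

/-- a closed neighbourhood of the cycles which defines the same basin -/
theorem exists_V (hf : Continuous f) {P : ℕ} (hP : 0 < P) {T : Set (OnePoint ℂ)} (hT : T.Finite)
    (hTf : ∀ a ∈ T, f a ∈ T) (hTa : ∀ a ∈ T, AttP f P a) :
    ∃ V : Set (OnePoint ℂ), IsClosed V ∧ V ⊆ Gs f V ∧ Gs f V = Gz f P T := by
  have hTG : T ⊆ Gz f P T := by
    intro a ha
    refine ⟨a, ha, ?_⟩
    have h1 : ∀ k : ℕ, f^[P * k] a = a := fun k => fix_mul (hTa a ha).1 k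
    simp only [h1]
    exact tendsto_const_nhds
  obtain ⟨u, hu, hTu, huG⟩ := normal_exists_closure_subset hT.isClosed (Gz_open hf hTa) hTG
  have h1 : Gz f P T ⊆ Gs f (closure u) := by
    rintro w ⟨a, ha, hw⟩
    have h2 : ∀ r ∈ Finset.range P, ∀ᶠ k : ℕ in atTop, f^[r + P * k] w ∈ u := by
      intro r _
      have h3 := ((hf.iterate r).tendsto a).comp hw
      have h4 : ∀ᶠ k : ℕ in atTop, (f^[r] ∘ fun k : ℕ => f^[P * k] w) k ∈ u :=
        h3.eventually (hu.mem_nhds (hTu (iterate_mem hTf ha r)))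
      filter_upwards [h4] with k hk
      rw [Function.iterate_add_apply]
      exact hk
    have h3 := (Filter.eventually_all_finset (Finset.range P)).2 h2
    obtain ⟨K, hK⟩ := eventually_atTop.1 h3
    refine eventually_atTop.2 ⟨P * K, fun m hm => subset_closure ?_⟩
    have h5 := hK (m / P) ((Nat.le_div_iff_mul_le hP).2 (by rw [mul_comm]; exact hm)) (m % P)
      (Finset.mem_range.2 (Nat.mod_lt m hP))
    rwa [Nat.mod_add_div] at h5
  have h2 : Gs f (closure u) ⊆ Gz f P T := by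
    intro w hw
    obtain ⟨n, hn⟩ := (show ∀ᶠ n in atTop, f^[n] w ∈ closure u from hw).exists
    obtain ⟨a, ha, hlim⟩ := huG hn
    exact ⟨_, iterate_mem hTf ha _, tendsto_back hf hP n hlim⟩
  exact ⟨closure u, isClosed_closure, huG.trans h1, h2.antisymm h1⟩

/-- if every point is attracted then there is only one cycle, and it is a fixed point -/
theorem unique_of_univ (hf : Continuous f) {P : ℕ} {T : Set (OnePoint ℂ)}
    (hTf : ∀ a ∈ T, f a ∈ T) (hTa : ∀ a ∈ T, AttP f P a)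
    (hall : Gz f P T = univ) : ∃ a, f a = a ∧ ∀ w, f^[2] w = w → w = a := by
  obtain ⟨a, ha, -⟩ : (∞ : OnePoint ℂ) ∈ Gz f P T := by rw [hall]; trivial
  have hall' : ∀ w, w ∈ Gz f P T := fun w => by rw [hall]; trivial
  set B : OnePoint ℂ → Set (OnePoint ℂ) :=
    fun b => {w | Tendsto (fun k : ℕ => f^[P * k] w) atTop (𝓝 b)} with hB
  have hBb : ∀ b ∈ T, b ∈ B b := by
    intro b hb
    have h1 : ∀ k : ℕ, f^[P * k] b = b := fun k => fix_mul (hTa b hb).1 k
    simp only [hB, mem_ofPred_eq, h1]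
    exact tendsto_const_nhds
  have hclopen : IsClopen (B a) := by
    refine ⟨?_, basin_open hf (hTa a ha)⟩
    rw [← isOpen_compl_iff]
    have e : (B a)ᶜ = ⋃ b ∈ T \ {a}, B b := by
      ext w
      constructor
      · intro hw
        obtain ⟨b, hb, hwb⟩ := hall' w
        simp only [mem_iUnion]
        refine ⟨b, ⟨hb, ?_⟩, hwb⟩
        rintro rfl
        exact hw hwb
      · intro hw hwa
        simp only [mem_iUnion] at hw
        obtain ⟨b, hb, hwb⟩ := hw
        exact hb.2 (tendsto_nhds_unique hwb hwa)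
    rw [e]
    exact isOpen_biUnion fun b hb => basin_open hf (hTa b hb.1)
  have huniv : B a = univ := by
    rcases isClopen_iff.1 hclopen with h | h
    · have := hBb a ha
      rw [h] at this
      exact absurd this (notMem_empty a)
    · exact h
  have key : ∀ w, Tendsto (fun k : ℕ => f^[P * k] w) atTop (𝓝 a) := fun w => by
    have : w ∈ B a := by rw [huniv]; trivial
    exact this
  refine ⟨a, ?_, ?_⟩
  · have h1 := hBb (f a) (hTf a ha)
    exact tendsto_nhds_unique h1 (key (f a))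
  · intro w hw
    have h1 := tendsto_mul two_pos (key w)
    have h2 : ∀ k : ℕ, f^[P * 2 * k] w = w := by
      intro k
      rw [show P * 2 * k = 2 * (P * k) by ring]
      exact fix_mul hw _
    simp only [h2] at h1
    exact tendsto_nhds_unique tendsto_const_nhds h1

end Pool.Agent.Helper32.HN
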