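import Mathlib
import Pool.Agent.Helper32.HN.Gen
import Pool.Agent.H790R3.RB.TPQ

/-!
# A rational map of degree at least two has two points of period one or two
-/

set_option autoImplicit false

open Topology Filter Set Polynomial
open scoped OnePoint

namespace Pool.Agent.Helper32.HN

open Pool.Agent.H790R3.RB

theorem two_inf {m : ℕ} (hm : 1 ≤ m) {y : CV (m + 1)} (hy : ND y) (hinf : sp y ∞ = ∞)
    (h2 : ∀ w, (sp y)^[2] w = w → w = ∞) : False := by
  have hd1 : 1 ≤ m + 1 := by omega
  have e10 : ((1, 0) : ℂ × ℂ) ≠ 0 := fun h => one_ne_zero (congrArg Prod.fst h)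
  set A : ℂ[X] := pol y 0 with hA
  set B : ℂ[X] := pol y 1 with hB
  have hone : ∀ z : ℂ, hF y (z, 1) = (A.eval z, B.eval z) := fun z => PQ.hF_one y z
  have hF10 : hF y (1, 0) = (A.coeff (m + 1), B.coeff (m + 1)) := by
    rw [PQ.hF_inf]
  have hB0 : B.coeff (m + 1) = 0 := by
    have h1 : sp y ∞ = pr (hF y (1, 0)) := rfl
    rw [h1, hF10] at hinf
    by_contra h
    rw [SP.pr_ne h] at hinf
    exact OnePoint.coe_ne_infty _ hinf
  have hAd : A.natDegree ≤ m + 1 := PQ.pol_natDegree y 0
  have hBd : B.natDegree ≤ m := by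
    have h1 : B.natDegree ≤ m + 1 := PQ.pol_natDegree y 1
    by_contra h
    have h2 : B.natDegree = m + 1 := by omega
    have h3 : B.leadingCoeff = 0 := by rw [Polynomial.leadingCoeff, h2]; exact hB0
    rw [Polynomial.leadingCoeff_eq_zero] at h3
    rw [h3] at h2
    simp at h2
  -- the fixed point equation has no finite solution
  have hfixz : ∀ z : ℂ, A.eval z - z * B.eval z ≠ 0 := by
    intro z hz
    have h1 : sp y (z : OnePoint ℂ) = (z : OnePoint ℂ) := by
      have := (iter_eq_coe hd1 hy 1 z z).2 (by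
        rw [Function.iterate_one, hone]
        exact sub_eq_zero.1 hz)
      simpa using this
    have h3 := h2 (z : OnePoint ℂ) (by
      rw [Function.iterate_succ_apply, Function.iterate_one, h1, h1])
    exact OnePoint.coe_ne_infty _ h3
  obtain ⟨c, hc⟩ : ∃ c : ℂ, A - X * B = C c := by
    by_contra hcon
    have h1 : (A - X * B).degree ≠ 0 := by
      intro h
      exact hcon ⟨_, Polynomial.eq_C_of_degree_eq_zero h⟩
    obtain ⟨z, hz⟩ := IsAlgClosed.exists_root _ h1
    apply hfixz z
    have h3 : (A - X * B).eval z = 0 := hz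
    simpa using h3
  have hceval : ∀ z : ℂ, A.eval z - z * B.eval z = c := by
    intro z
    have h1 := congrArg (fun p : ℂ[X] => p.eval z) hc
    simpa using h1
  have hc0 : c ≠ 0 := by
    rw [← hceval 0]
    exact hfixz 0
  -- leading coefficients
  have hAq : A.coeff (m + 1) = B.coeff m := by
    have h1 : A = X * B + C c := by rw [← hc]; ring
    rw [h1, Polynomial.coeff_add, Polynomial.coeff_X_mul, Polynomial.coeff_C]
    simp
  have hq0 : B.coeff m ≠ 0 := by
    intro h
    apply e10
    apply hy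
    rw [hF10, hAq, h, hB0]
    rfl
  set q : ℂ := B.coeff m with hq
  -- the polynomial whose roots are the points of period two
  set S : ℂ[X] := POLY.Q (d := m) (fun j => y (1, j.castSucc)) A B with hS
  have hSeval : ∀ z : ℂ, (hF y (A.eval z, B.eval z)).2 = B.eval z * S.eval z := by
    intro z
    rw [hS, POLY.Q_eval, Finset.mul_sum]
    show ∑ j : Fin (m + 1 + 1), y (1, j) * ((A.eval z) ^ (j : ℕ) *
      (B.eval z) ^ (m + 1 - (j : ℕ))) = _
    rw [Fin.sum_univ_castSucc]
    have h1 : y (1, Fin.last (m + 1)) = 0 := by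
      have h2 := PQ.pol_coeff y 1 (Fin.last (m + 1))
      simp only [Fin.val_last] at h2
      rw [← h2]
      exact hB0
    rw [h1, zero_mul, add_zero]
    refine Finset.sum_congr rfl fun j _ => ?_
    have h3 : m + 1 - ((j.castSucc : Fin (m + 1 + 1)) : ℕ) = (m - (j : ℕ)) + 1 := by
      have := j.2
      simp only [Fin.val_castSucc]
      omega
    rw [h3, Fin.val_castSucc, pow_succ]
    ring
  have hScoeff : S.coeff (m * (m + 1)) = q * q ^ m := by
    rw [hS, POLY.Q_coeff _ hAd (hBd.trans (by omega)), hAq, hB0]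
    rw [Fin.sum_univ_castSucc]
    have h1 : ∀ j : Fin m, y (1, (j.castSucc : Fin (m + 1)).castSucc) *
        (q ^ ((j.castSucc : Fin (m + 1)) : ℕ) * (0 : ℂ) ^ (m - ((j.castSucc : Fin (m + 1)) : ℕ))) =
        0 := by
      intro j
      have h2 : m - ((j.castSucc : Fin (m + 1)) : ℕ) ≠ 0 := by
        have := j.2
        simp only [Fin.val_castSucc]
        omega
      rw [zero_pow h2, mul_zero, mul_zero]
    rw [Finset.sum_eq_zero fun j _ => h1 j, zero_add]
    simp only [Fin.val_last, Nat.sub_self, pow_zero, mul_one]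
    have h3 := PQ.pol_coeff y 1 (Fin.last m).castSucc
    simp only [Fin.val_castSucc, Fin.val_last] at h3
    rw [← h3]
  have hBpow : (B ^ (m + 1)).coeff (m * (m + 1)) = q ^ (m + 1) := by
    have h1 := Polynomial.coeff_pow_of_natDegree_le (m := m + 1) hBd
    rw [mul_comm m (m + 1)]
    exact h1
  have hT : (B ^ (m + 1) + S).coeff (m * (m + 1)) ≠ 0 := by
    rw [Polynomial.coeff_add, hBpow, hScoeff]
    have : q ^ (m + 1) + q * q ^ m = 2 * q ^ (m + 1) := by ring
    rw [this]
    exact mul_ne_zero two_ne_zero (pow_ne_zero _ hq0)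
  obtain ⟨z, hz⟩ := exists_root' (by nlinarith : 1 ≤ m * (m + 1)) hT
  rw [Polynomial.eval_add, Polynomial.eval_pow] at hz
  have hBz : B.eval z ≠ 0 := by
    intro hB0'
    rw [hB0', zero_pow (by omega), zero_add] at hz
    have hAz : A.eval z = c := by
      have := hceval z
      rw [hB0', mul_zero, sub_zero] at this
      exact this
    rw [hS, POLY.Q_eval, hB0', hAz, Fin.sum_univ_castSucc] at hz
    have h1 : ∀ j : Fin m, y (1, (j.castSucc : Fin (m + 1)).castSucc) *
        (c ^ ((j.castSucc : Fin (m + 1)) : ℕ) * (0 : ℂ) ^ (m - ((j.castSucc : Fin (m + 1)) : ℕ))) =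
        0 := by
      intro j
      have h2 : m - ((j.castSucc : Fin (m + 1)) : ℕ) ≠ 0 := by
        have := j.2
        simp only [Fin.val_castSucc]
        omega
      rw [zero_pow h2, mul_zero, mul_zero]
    rw [Finset.sum_eq_zero fun j _ => h1 j, zero_add] at hz
    simp only [Fin.val_last, Nat.sub_self, pow_zero, mul_one] at hz
    have h3 := PQ.pol_coeff y 1 (Fin.last m).castSucc
    simp only [Fin.val_castSucc, Fin.val_last] at h3
    rw [← h3] at hz
    rcases mul_eq_zero.1 hz with h | h
    · exact hq0 h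
    · exact pow_ne_zero _ hc0 h
  -- `z` is a point of period two
  set p0 : ℂ × ℂ := (z, 1) with hp0
  set p1 : ℂ × ℂ := (A.eval z, B.eval z) with hp1
  have hp01 : hF y p0 = p1 := hone z
  have k1 : cr p1 p0 = c := by
    have := hceval z
    simp only [cr, hp1, hp0]
    linear_combination this
  have k2 : cr (hF y p1) p1 = c * B.eval z ^ (m + 2) := by
    have h3 : p1 = B.eval z • ((A.eval z / B.eval z, 1) : ℂ × ℂ) := by
      rw [hp1]
      ext
      · simp only [Prod.smul_fst, smul_eq_mul]; field_simp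
      · simp
    have h4 : cr (hF y (A.eval z / B.eval z, 1)) (A.eval z / B.eval z, 1) = c := by
      rw [hone]
      have := hceval (A.eval z / B.eval z)
      simp only [cr]
      linear_combination this
    rw [h3, hF_smul, cr_smul_left, cr_smul_right, h4]
    ring
  have k3 : (hF y p1).2 = B.eval z * S.eval z := hSeval z
  have k4 : cr (hF y p1) p0 * B.eval z = 0 := by
    have h5 : cr (hF y p1) p0 * p1.2 = cr (hF y p1) p1 * p0.2 + cr p1 p0 * (hF y p1).2 := by
      simp only [cr]; ring
    have h6 : p1.2 = B.eval z := rfl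
    have h7 : p0.2 = 1 := rfl
    rw [h6, h7, k1, k2, k3] at h5
    rw [h5]
    linear_combination c * B.eval z * hz
  have k5 : cr (hF y p1) p0 = 0 := (mul_eq_zero.1 k4).resolve_right hBz
  have k6 : (sp y)^[2] (z : OnePoint ℂ) = (z : OnePoint ℂ) := by
    rw [iter_eq_coe hd1 hy]
    have h8 : (hF y)^[2] ((z, 1) : ℂ × ℂ) = hF y p1 := by
      rw [Function.iterate_succ_apply, Function.iterate_one, ← hp0, hp01]
    rw [h8]
    simp only [cr, hp0, mul_one] at k5
    linear_combination k5
  exact OnePoint.coe_ne_infty _ (h2 _ k6)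

/-- A rational map of degree at least two has two points of period one or two. -/
theorem two_periodic {d : ℕ} (hd : 2 ≤ d) {x : CV d} (hx : ND x) {a : OnePoint ℂ}
    (ha : sp x a = a) (h2 : ∀ w, (sp x)^[2] w = w → w = a) : False := by
  obtain ⟨m, rfl⟩ : ∃ m, d = m + 1 := ⟨d - 1, by omega⟩
  obtain ⟨y, h, hy, hfg, hinf, -⟩ := conj_inf hx a
  refine two_inf (by omega) hy ?_ ?_
  · rw [← hinf, hfg, ha]
  · intro w hw
    obtain ⟨w', rfl⟩ := h.surjective w
    rw [iter_conj hfg] at hw
    rw [h2 w' (h.injective hw), hinf]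

end Pool.Agent.Helper32.HN
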