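import Mathlib
import Pool.Agent.Helper32.HN.Hyp
import Pool.Agent.Helper32.HN.Two
import Pool.Agent.Helper32.HN.Fat

/-!
# The Julia set of a hyperbolic rational map is a null set
-/

set_option autoImplicit false

open Topology Filter Set MeasureTheory Polynomial
open scoped OnePoint

namespace Pool.Agent.Helper32.HN

open Pool.Agent.H790R3.RB

/-- the Fatou set: the points of local equicontinuity of the iterates -/
def Fa (f : OnePoint ℂ → OnePoint ℂ) : Set (OnePoint ℂ) :=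
  {x | ∃ U ∈ 𝓝 x, ∀ y ∈ U, ∀ W ∈ 𝓝ˢ (Set.diagonal (OnePoint ℂ)),
    ∀ᶠ z in 𝓝 y, ∀ n : ℕ, (f^[n] y, f^[n] z) ∈ W}

/-- The complement of the basin, if it is not empty, has three points. -/
theorem three_points {d : ℕ} {x : CV d} {V : Set (OnePoint ℂ)} (D : DatT x V)
    {w₀ : OnePoint ℂ} (h0 : w₀ ∉ Gs (sp x) V) :
    ∃ w₁ w₂ w₃ : OnePoint ℂ, w₁ ∉ Gs (sp x) V ∧ w₂ ∉ Gs (sp x) V ∧ w₃ ∉ Gs (sp x) V ∧
      w₁ ≠ w₂ ∧ w₁ ≠ w₃ ∧ w₂ ≠ w₃ := by
  have hinv : ∀ w, sp x w ∈ Gs (sp x) V ↔ w ∈ Gs (sp x) V := fun w => by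
    have := mem_Gs_iter (f := sp x) (V := V) 1 w
    simpa using this
  -- a second point with the same value
  have hsec : ∀ w, w ∉ Gs (sp x) V → ∃ w', w' ≠ w ∧ sp x w' = sp x w := by
    intro w hw
    obtain ⟨e1, n1⟩ := SP.pr_hc w
    have hwr : wr x (hc w) ≠ 0 := by
      intro h
      apply hw
      have := D.dat.crit _ n1 h
      rwa [e1] at this
    obtain ⟨p', h1, h2⟩ := second D.hd n1 hwr
    have hp' : p' ≠ 0 := by
      intro h
      apply h1
      rw [h]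
      simp [cr]
    refine ⟨pr p', ?_, ?_⟩
    · intro h
      apply h1
      rw [← e1] at h
      exact (SP.pr_eq_iff hp' n1).1 h
    · rw [SP.sp_pr D.nd hp']
      have h3 : sp x w = pr (hF x (hc w)) := rfl
      rw [h3]
      exact (SP.pr_eq_iff (fun h => hp' (D.nd _ h)) (fun h => n1 (D.nd _ h))).2 h2
  have hsurj : ∀ w, ∃ w', sp x w' = w := by
    intro w
    obtain ⟨e1, n1⟩ := SP.pr_hc w
    have hd1 : 1 ≤ d := by have := D.hd; omega
    obtain ⟨p, hp, h1⟩ := surj hd1 x (hc w)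
    refine ⟨pr p, ?_⟩
    rw [SP.sp_pr D.nd hp]
    conv_rhs => rw [← e1]
    exact (SP.pr_eq_iff (fun h => hp (D.nd _ h)) n1).2 h1
  obtain ⟨w₁, h10, h1⟩ := hsec w₀ h0
  have hw₁ : w₁ ∉ Gs (sp x) V := by
    rw [← hinv, h1, hinv]; exact h0
  -- one of the two points is different from the common value
  obtain ⟨u, hu, huv⟩ : ∃ u, u ∉ Gs (sp x) V ∧ u ≠ sp x w₀ := by
    by_cases h : w₀ = sp x w₀
    · exact ⟨w₁, hw₁, fun h' => h10 (h'.trans h.symm)⟩
    · exact ⟨w₀, h0, h⟩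
  obtain ⟨w₂, hw₂⟩ := hsurj u
  have hw₂' : w₂ ∉ Gs (sp x) V := by
    rw [← hinv, hw₂]; exact hu
  refine ⟨w₀, w₁, w₂, h0, hw₁, hw₂', h10.symm, ?_, ?_⟩
  · rintro rfl
    exact huv hw₂.symm
  · rintro rfl
    exact huv (hw₂.symm.trans h1)

/-- **Hyperbolic rational maps have null Julia sets**; so do their sets of points which are not
attracted. -/
theorem hyper {d : ℕ} (hd : 2 ≤ d) {x : CV d} (hx : ND x) (H : HypTop (sp x)) :
    volume {z : ℂ | (z : OnePoint ℂ) ∉ Fa (sp x)} = 0 := by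
  have hd1 : 1 ≤ d := by omega
  have hfc : Continuous (sp x) := SP.sp_cont hx
  obtain ⟨P, T, hP, hTfin, hTf, hTa, hcrit⟩ := exists_PT hfc H
  obtain ⟨V, hVc, hVG, hGeq⟩ := exists_V hfc hP hTfin hTf hTa
  have D : DatT x V := by
    refine ⟨hd, hx, hVc, ?_, hVG, ?_⟩
    · rw [hGeq]; exact Gz_open hfc hTa
    · intro c hc
      rw [hGeq]; exact hcrit c hc
  obtain ⟨w₀, hw₀⟩ : ∃ w₀, w₀ ∉ Gs (sp x) V := by
    by_contra hcon
    push Not at hcon
    have hall : Gz (sp x) P T = univ := by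
      rw [← hGeq]
      exact eq_univ_of_forall hcon
    obtain ⟨a, ha, h2⟩ := unique_of_univ hfc hTf hTa hall
    exact two_periodic hd hx ha h2
  obtain ⟨w₁, w₂, w₃, h1, h2, h3, h12, h13, h23⟩ := three_points D hw₀
  refine measure_mono_null ?_ (null_gen D)
  intro z hz hzG
  refine hz (equi hd1 hx D.op ?_ ?_ h1 h2 h3 h12 h13 h23 hzG)
  · intro w hw
    have := (mem_Gs_iter (f := sp x) (V := V) 1 w).2 hw
    simpa using this
  · intro w hw
    obtain ⟨K, hK⟩ := eventually_atTop.1 (show ∀ᶠ n in atTop, (sp x)^[n] w ∈ V from hw)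
    refine ⟨V ∪ (fun n => (sp x)^[n] w) '' (Finset.range K : Set ℕ), ?_, ?_, ?_⟩
    · exact hVc.union ((Finset.finite_toSet _).image _).isClosed
    · rintro _ (hv | ⟨n, -, rfl⟩)
      · exact hVG hv
      · exact (mem_Gs_iter n w).2 hw
    · intro n
      by_cases hn : n < K
      · right
        exact ⟨n, by simpa using hn, rfl⟩
      · left
        exact hK n (not_lt.1 hn)

/-- The version for pairs of polynomials. -/
theorem hyper_poly {P Q : ℂ[X]} {f : OnePoint ℂ → OnePoint ℂ} (hPQ : IsCoprime P Q)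
    (hd : 2 ≤ max P.natDegree Q.natDegree) (hf : Continuous f)
    (hfe : ∀ z : ℂ, Q.eval z ≠ 0 → f (OnePoint.some z) = OnePoint.some (P.eval z / Q.eval z))
    (H : HypTop f) : volume {z : ℂ | (z : OnePoint ℂ) ∉ Fa f} = 0 := by
  obtain ⟨x, hx, -, -, hx4⟩ := (PQ SP (max P.natDegree Q.natDegree) (by omega)).2 P Q hPQ rfl
  have e : f = sp x := hx4 f hf fun z hz => hfe z hz
  rw [e] at H ⊢
  exact hyper hd hx H

/-- Every pair of coprime polynomials defines a continuous map of the sphere. -/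
theorem exists_map {P Q : ℂ[X]} (hPQ : IsCoprime P Q) (hd : 1 ≤ max P.natDegree Q.natDegree) :
    ∃ f : OnePoint ℂ → OnePoint ℂ, Continuous f ∧
      ∀ z : ℂ, Q.eval z ≠ 0 → f (OnePoint.some z) = OnePoint.some (P.eval z / Q.eval z) := by
  obtain ⟨x, hx, h0, h1, -⟩ := (PQ SP (max P.natDegree Q.natDegree) hd).2 P Q hPQ rfl
  refine ⟨sp x, SP.sp_cont hx, fun z hz => ?_⟩
  have := PQ.sp_eval x z (by rw [h1]; exact hz)
  rw [h0, h1] at this
  exact this

end Pool.Agent.Helper32.HN
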